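import Pool.Agent.U180.SN.Tail

/-! # Random points in small cubes: the lower bound -/

open Finset MeasureTheory

set_option linter.unusedSectionVars false

namespace Pool.Agent.U180.SN

/-- the part of a small cube below a corner -/
lemma vol_corner {d : ℕ} (a x : Fin d → ℝ) {h : ℝ} (hh : 0 < h) :
    volume {u : Fin d → ℝ | u ∈ Set.Icc (0 : Fin d → ℝ) 1 ∧ ∀ j, a j + h * u j ≤ x j}
      = ENNReal.ofReal (∏ j, max 0 (min 1 ((x j - a j) / h))) := by
  have e : {u : Fin d → ℝ | u ∈ Set.Icc (0 : Fin d → ℝ) 1 ∧ ∀ j, a j + h * u j ≤ x j}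
      = Set.pi Set.univ (fun j => Set.Icc 0 (min 1 ((x j - a j) / h))) := by
    ext u
    simp only [Set.mem_ofPred_eq, Set.mem_pi, Set.mem_univ, forall_true_left, Set.mem_Icc, le_min_iff]
    constructor
    · rintro ⟨⟨h1, h2⟩, h3⟩ j
      refine ⟨h1 j, h2 j, ?_⟩
      rw [le_div_iff₀ hh]
      have := h3 j
      linarith
    · intro h1
      refine ⟨⟨fun j => (h1 j).1, fun j => (h1 j).2.1⟩, fun j => ?_⟩
      have := (h1 j).2.2
      rw [le_div_iff₀ hh] at this
      linarith
  rw [e, volume_pi, Measure.pi_pi]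
  simp only [Real.volume_Icc, sub_zero]
  rw [ENNReal.ofReal_prod_of_nonneg fun j _ => le_max_left _ _]
  refine Finset.prod_congr rfl fun j _ => ?_
  rcases le_total 0 (min 1 ((x j - a j) / h)) with h1 | h1
  · rw [max_eq_right h1]
  · rw [max_eq_left h1, ENNReal.ofReal_of_nonpos h1, ENNReal.ofReal_zero]

lemma meas_corner {d : ℕ} (a x : Fin d → ℝ) (h : ℝ) :
    MeasurableSet {u : Fin d → ℝ | u ∈ Set.Icc (0 : Fin d → ℝ) 1 ∧ ∀ j, a j + h * u j ≤ x j} := by
  have e : {u : Fin d → ℝ | u ∈ Set.Icc (0 : Fin d → ℝ) 1 ∧ ∀ j, a j + h * u j ≤ x j}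
      = Set.Icc 0 1 ∩ ⋂ j, {u : Fin d → ℝ | a j + h * u j ≤ x j} := by
    ext u
    simp
  rw [e]
  refine measurableSet_Icc.inter (MeasurableSet.iInter fun j => ?_)
  exact measurableSet_le (by fun_prop) measurable_const

lemma clamp_nonneg (y : ℝ) : 0 ≤ max 0 (min 1 y) := le_max_left _ _
lemma clamp_le_one (y : ℝ) : max 0 (min 1 y) ≤ 1 := max_le zero_le_one (min_le_left _ _)

lemma prod_clamp_nonneg {d : ℕ} (y : Fin d → ℝ) : 0 ≤ ∏ j, max 0 (min 1 (y j)) :=
  Finset.prod_nonneg fun _ _ => clamp_nonneg _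
lemma prod_clamp_le_one {d : ℕ} (y : Fin d → ℝ) : ∏ j, max 0 (min 1 (y j)) ≤ 1 :=
  Finset.prod_le_one (fun _ _ => clamp_nonneg _) fun _ _ => clamp_le_one _

/-- the lower bound, with free parameters -/
theorem lower_core {d m n K N : ℕ} (hd : 1 ≤ d) (hn : 1 ≤ n) (hK : 8 * K ≤ n)
    (a : Fin m → Fin d → ℝ) {δ lam : ℝ}
    (hδ0 : 0 < δ) (hδ : δ ≤ (1 / 4) ^ d) (hN : 16 ≤ δ ^ 2 * N)
    (hlamN : m * lam ≤ δ * N / 2)
    (hN4 : (4:ℝ) * N ≤ m * (1 / n * (1 / 2) ^ (d - 1)) - 2 * (m * lam)) :
    volume {u : Fin m → Fin d → ℝ | (∀ i, u i ∈ Set.Icc (0 : Fin d → ℝ) 1) ∧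
      ∀ t : ℝ, 0 ≤ t → t < 1 →
        |(((univ : Finset (Fin m)).filter fun i => ∀ j, a i j + 1 / n * u i j ≤ t).card : ℝ)
          - m * t ^ d| ≤ m * lam}
      ≤ ENNReal.ofReal ((1 - 1 / 4 * Real.exp (-(2 * N * δ ^ 2 / (1 / 4) ^ d))) ^ K) := by
  classical
  set E : Set (Fin m → Fin d → ℝ) := {u : Fin m → Fin d → ℝ | (∀ i, u i ∈ Set.Icc (0 : Fin d → ℝ) 1) ∧
      ∀ t : ℝ, 0 ≤ t → t < 1 →
        |(((univ : Finset (Fin m)).filter fun i => ∀ j, a i j + 1 / n * u i j ≤ t).card : ℝ)
          - m * t ^ d| ≤ m * lam} with hE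
  rcases Set.eq_empty_or_nonempty E with hEe | ⟨u₀, hu₀⟩
  · rw [hEe, measure_empty]
    exact bot_le
  have hn0 : (0:ℝ) < n := by exact_mod_cast hn
  set h : ℝ := 1 / n with hh
  have hh0 : 0 < h := by positivity
  have hnh : (n:ℝ) * h = 1 := by rw [hh]; field_simp
  -- the largest coordinate of the corner of the cube
  have hM : ∀ i, ∃ j₀, ∀ j, a i j ≤ a i j₀ := by
    intro i
    have : Nonempty (Fin d) := ⟨⟨0, hd⟩⟩
    exact Finite.exists_max (a i)
  choose j₀ hj₀ using hM
  set M : Fin m → ℝ := fun i => a i (j₀ i) with hMd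
  have hMle : ∀ i j, a i j ≤ M i := fun i j => hj₀ i j
  set s : ℕ → ℝ := fun k => 1 / 2 + 4 * h * k with hs
  have hsk : ∀ k < K, s k + 3 * h < 1 := by
    intro k hk
    have h1 : (8:ℝ) * K ≤ n := by exact_mod_cast hK
    have h2 : (k:ℝ) + 1 ≤ K := by exact_mod_cast hk
    have h3 : 8 * ((k:ℝ) + 1) * h ≤ 1 := by
      calc 8 * ((k:ℝ) + 1) * h ≤ n * h := mul_le_mul_of_nonneg_right (by linarith) hh0.le
        _ = 1 := hnh
    simp only [hs]
    nlinarith
  have hs0 : ∀ k, 1 / 2 ≤ s k := by
    intro k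
    simp only [hs]
    have : (0:ℝ) ≤ 4 * h * k := by positivity
    linarith
  -- many corners in each window
  have hmany : ∀ k < K, (4:ℝ) * N ≤ (((univ : Finset (Fin m)).filter
      fun i => s k < M i ∧ M i ≤ s k + 2 * h).card : ℝ) := by
    intro k hk
    have h1 := hu₀.2 (s k + 2 * h) (by have := hs0 k; positivity) (by have := hsk k hk; linarith)
    have h2 := hu₀.2 (s k + h) (by have := hs0 k; positivity) (by have := hsk k hk; linarith)
    have hsub : ((univ : Finset (Fin m)).filter fun i => ∀ j, a i j + h * u₀ i j ≤ s k + 2 * h)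
        ⊆ ((univ : Finset (Fin m)).filter fun i => ∀ j, a i j + h * u₀ i j ≤ s k + h) ∪
          ((univ : Finset (Fin m)).filter fun i => s k < M i ∧ M i ≤ s k + 2 * h) := by
      intro i hi
      rw [Finset.mem_filter] at hi
      rw [Finset.mem_union, Finset.mem_filter, Finset.mem_filter]
      by_cases hc : ∀ j, a i j + h * u₀ i j ≤ s k + h
      · exact Or.inl ⟨Finset.mem_univ i, hc⟩
      · refine Or.inr ⟨Finset.mem_univ i, ?_, ?_⟩
        · push Not at hc
          obtain ⟨j, hj⟩ := hc
          have h3 : u₀ i j ≤ 1 := (hu₀.1 i).2 j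
          have h4 : h * u₀ i j ≤ h * 1 := mul_le_mul_of_nonneg_left h3 hh0.le
          have := hMle i j
          linarith
        · have h3 : 0 ≤ u₀ i (j₀ i) := (hu₀.1 i).1 (j₀ i)
          have h4 : 0 ≤ h * u₀ i (j₀ i) := by positivity
          have := hi.2 (j₀ i)
          simp only [hMd]
          linarith
    have hcard := (Finset.card_le_card hsub).trans (Finset.card_union_le _ _)
    have hcard' : ((((univ : Finset (Fin m)).filter fun i => ∀ j, a i j + h * u₀ i j ≤ s k + 2 * h).card : ℕ) : ℝ)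
        ≤ (((univ : Finset (Fin m)).filter fun i => ∀ j, a i j + h * u₀ i j ≤ s k + h).card : ℝ)
          + (((univ : Finset (Fin m)).filter fun i => s k < M i ∧ M i ≤ s k + 2 * h).card : ℝ) := by
      exact_mod_cast hcard
    have h3 := (abs_le.mp h1).1
    have h4 := (abs_le.mp h2).2
    have hpow : h * (1 / 2) ^ (d - 1) ≤ (s k + 2 * h) ^ d - (s k + h) ^ d := by
      obtain ⟨e, rfl⟩ : ∃ e, d = e + 1 := ⟨d - 1, by omega⟩
      have h5 : (1/2 : ℝ) ^ e ≤ (s k + 2 * h) ^ e := pow_le_pow_left₀ (by norm_num)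
        (by have := hs0 k; linarith) e
      have h6 : (s k + h) ^ e ≤ (s k + 2 * h) ^ e := pow_le_pow_left₀
        (by have := hs0 k; linarith) (by linarith) e
      have h7 : 0 ≤ s k + h := by have := hs0 k; linarith
      simp only [Nat.add_sub_cancel, pow_succ]
      calc h * (1 / 2) ^ e ≤ h * (s k + 2 * h) ^ e := mul_le_mul_of_nonneg_left h5 hh0.le
        _ = (s k + 2 * h) ^ e * (s k + 2 * h) - (s k + 2 * h) ^ e * (s k + h) := by ring
        _ ≤ (s k + 2 * h) ^ e * (s k + 2 * h) - (s k + h) ^ e * (s k + h) := by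
            have := mul_le_mul_of_nonneg_right h6 h7
            linarith
    have h8 := mul_le_mul_of_nonneg_left hpow (Nat.cast_nonneg (α := ℝ) m)
    linarith
  -- choose sub-windows
  have hchoice : ∀ k, ∃ t : ℝ, ∃ J : Finset (Fin m),
      (∀ i ∈ J, h / 4 ≤ t - M i ∧ t - M i ≤ 3 * h / 4) ∧
      (k < K → J.card = N ∧ s k + 3 * h / 4 ≤ t ∧ t ≤ s k + 9 * h / 4) := by
    intro k
    by_cases hk : k < K
    swap
    · exact ⟨0, ∅, by simp, fun h => absurd h hk⟩
    have hcov : ((univ : Finset (Fin m)).filter fun i => s k < M i ∧ M i ≤ s k + 2 * h)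
        ⊆ (Finset.range 4).biUnion fun q => (univ : Finset (Fin m)).filter
          fun i => s k + q * (h / 2) < M i ∧ M i ≤ s k + (q + 1) * (h / 2) := by
      intro i hi
      rw [Finset.mem_filter] at hi
      obtain ⟨-, h1, h2⟩ := hi
      rw [Finset.mem_biUnion]
      rcases le_or_gt (M i) (s k + h / 2) with h3 | h3
      · refine ⟨0, by simp, ?_⟩
        rw [Finset.mem_filter]
        refine ⟨Finset.mem_univ _, ?_, ?_⟩
        · push_cast; linarith
        · push_cast; linarith
      rcases le_or_gt (M i) (s k + h) with h4 | h4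
      · refine ⟨1, by simp, ?_⟩
        rw [Finset.mem_filter]
        refine ⟨Finset.mem_univ _, ?_, ?_⟩
        · push_cast; linarith
        · push_cast; linarith
      rcases le_or_gt (M i) (s k + 3 * h / 2) with h5 | h5
      · refine ⟨2, by simp, ?_⟩
        rw [Finset.mem_filter]
        refine ⟨Finset.mem_univ _, ?_, ?_⟩
        · push_cast; linarith
        · push_cast; linarith
      · refine ⟨3, by simp, ?_⟩
        rw [Finset.mem_filter]
        refine ⟨Finset.mem_univ _, ?_, ?_⟩
        · push_cast; linarith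
        · push_cast; linarith
    have hex : ∃ q ∈ Finset.range 4, N ≤ ((univ : Finset (Fin m)).filter
          fun i => s k + q * (h / 2) < M i ∧ M i ≤ s k + (q + 1) * (h / 2)).card := by
      by_contra hcon
      push Not at hcon
      have h1 : 4 * N ≤ ((univ : Finset (Fin m)).filter fun i => s k < M i ∧ M i ≤ s k + 2 * h).card := by
        exact_mod_cast hmany k hk
      have h2 := (Finset.card_le_card hcov).trans Finset.card_biUnion_le
      have h3 : ∑ q ∈ Finset.range 4, ((univ : Finset (Fin m)).filter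
          fun i => s k + q * (h / 2) < M i ∧ M i ≤ s k + (q + 1) * (h / 2)).card
          < ∑ _q ∈ Finset.range 4, N := Finset.sum_lt_sum_of_nonempty ⟨0, by simp⟩ hcon
      rw [Finset.sum_const, Finset.card_range, smul_eq_mul] at h3
      omega
    obtain ⟨q, hq, hNq⟩ := hex
    obtain ⟨J, hJ, hJc⟩ := Finset.exists_subset_card_eq hNq
    have hq4 : (q:ℝ) ≤ 3 := by
      have : q < 4 := Finset.mem_range.mp hq
      have : q ≤ 3 := by omega
      exact_mod_cast this
    have hq0 : (0:ℝ) ≤ q := Nat.cast_nonneg q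
    refine ⟨s k + (q + 1) * (h / 2) + h / 4, J, ?_, fun _ => ⟨hJc, ?_, ?_⟩⟩
    · intro i hi
      have := hJ hi
      rw [Finset.mem_filter] at this
      obtain ⟨-, h1, h2⟩ := this
      constructor <;> linarith
    · nlinarith
    · nlinarith
  choose t J hJt hJK using hchoice
  set I : ℕ → Finset (Fin m) := fun k =>
    (univ : Finset (Fin m)).filter fun i => t k - h < M i ∧ M i ≤ t k with hI
  have hJI : ∀ k, J k ⊆ I k := by
    intro k i hi
    have := hJt k i hi
    simp only [hI, Finset.mem_filter, Finset.mem_univ, true_and]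
    constructor <;> linarith
  set κ : Fin m → ℕ := fun i => ⌊(M i - 1 / 2 + h / 4) / (4 * h)⌋₊ with hκ
  have hκI : ∀ k < K, ∀ i ∈ I k, κ i = k := by
    intro k hk i hi
    simp only [hI, Finset.mem_filter, Finset.mem_univ, true_and] at hi
    obtain ⟨-, h1, h2⟩ := hJK k hk
    simp only [hκ]
    rw [Nat.floor_eq_iff]
    · constructor
      · rw [le_div_iff₀ (by positivity)]
        simp only [hs] at h1 h2
        linarith [hi.1]
      · rw [div_lt_iff₀ (by positivity)]
        simp only [hs] at h1 h2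
        linarith [hi.2]
    · refine div_nonneg ?_ (by positivity)
      have := hs0 k
      linarith [hi.1]
  have hdisj : ∀ k < K, ∀ l < K, k ≠ l → Disjoint (I k) (I l) := by
    intro k hk l hl hkl
    rw [Finset.disjoint_left]
    intro i hi hi'
    exact hkl ((hκI k hk i hi).symm.trans (hκI l hl i hi'))
  set T : Fin m → ℝ := fun i => t (κ i) with hT
  set A : Fin m → Set (Fin d → ℝ) := fun i =>
    {u : Fin d → ℝ | u ∈ Set.Icc (0 : Fin d → ℝ) 1 ∧ ∀ j, a i j + h * u j ≤ T i} with hA
  set p : Fin m → ℝ := fun i => ∏ j, max 0 (min 1 ((T i - a i j) / h)) with hp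
  have hp0 : ∀ i, 0 ≤ p i := fun i => prod_clamp_nonneg _
  have hp1 : ∀ i, p i ≤ 1 := fun i => prod_clamp_le_one _
  have hpJ : ∀ k < K, ∀ i ∈ J k, (1 / 4 : ℝ) ^ d ≤ p i ∧ p i ≤ 1 - (1 / 4) ^ d := by
    intro k hk i hi
    have hTi : T i = t k := by
      simp only [hT]
      rw [hκI k hk i (hJI k hi)]
    obtain ⟨h1, h2⟩ := hJt k i hi
    constructor
    · simp only [hp]
      have hconst : (1 / 4 : ℝ) ^ d = ∏ _j : Fin d, (1 / 4 : ℝ) := by simp
      rw [hconst]
      refine Finset.prod_le_prod (fun _ _ => by norm_num) fun j _ => ?_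
      refine le_max_of_le_right (le_min (by norm_num) ?_)
      rw [hTi, le_div_iff₀ hh0]
      have := hMle i j
      linarith
    · have h3 : p i ≤ 3 / 4 := by
        simp only [hp]
        rw [← Finset.mul_prod_erase _ _ (Finset.mem_univ (j₀ i))]
        have h4 : max 0 (min 1 ((T i - a i (j₀ i)) / h)) ≤ 3 / 4 := by
          refine max_le (by norm_num) (min_le_of_right_le ?_)
          rw [hTi, div_le_iff₀ hh0]
          have h5 : t k - M i ≤ 3 * h / 4 := h2
          simp only [hMd] at h5
          linarith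
        have h5 : ∏ j ∈ univ.erase (j₀ i), max 0 (min 1 ((T i - a i j) / h)) ≤ 1 :=
          Finset.prod_le_one (fun _ _ => clamp_nonneg _) fun _ _ => clamp_le_one _
        have h6 : 0 ≤ ∏ j ∈ univ.erase (j₀ i), max 0 (min 1 ((T i - a i j) / h)) :=
          Finset.prod_nonneg fun _ _ => clamp_nonneg _
        calc _ ≤ (3 / 4 : ℝ) * 1 := mul_le_mul h4 h5 h6 (by norm_num)
          _ = 3 / 4 := by norm_num
      have h7 : (1 / 4 : ℝ) ^ d ≤ (1 / 4) ^ 1 := pow_le_pow_of_le_one (by norm_num) (by norm_num) hd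
      linarith
  set c : ℕ → ℝ := fun k => (((univ : Finset (Fin m)).filter fun i => M i ≤ t k - h).card : ℝ) with hc
  set P : ℕ → (Fin m → Bool) → Prop := fun k ω =>
    |c k + cnt (I k) ω - m * (t k) ^ d| ≤ δ * N / 2 with hP
  set q : ℝ := 1 - 1 / 4 * Real.exp (-(2 * N * δ ^ 2 / (1 / 4) ^ d)) with hq
  have hq0 : 0 ≤ q := by
    have h1 : Real.exp (-(2 * N * δ ^ 2 / (1 / 4) ^ d)) ≤ 1 := by
      rw [Real.exp_le_one_iff, neg_nonpos]
      positivity
    rw [hq]
    linarith
  have hblocks := block_all hp0 hp1 J I hJI hdisj P (by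
    intro k ω η hωη
    have : cnt (I k) ω = cnt (I k) η := by
      unfold cnt
      refine Finset.sum_congr rfl fun i hi => ?_
      rw [hωη i hi]
    simp only [hP, this]) hq0 (by
    intro k hk ω
    have hJc := (hJK k hk).1
    have h1 := tail_two hp0 hp1 (J k) (a := (1 / 4 : ℝ) ^ d) (by positivity)
      (fun i hi => (hpJ k hk i hi).1) (fun i hi => (hpJ k hk i hi).2) hδ0 hδ (by rw [hJc]; exact hN)
      (m * (t k) ^ d - c k - ∑ i ∈ I k \ J k, (if ω i then (1:ℝ) else 0))
    rw [hJc] at h1
    refine le_trans (le_of_eq ?_) h1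
    refine Finset.sum_congr rfl fun η _ => ?_
    have h2 : cnt (I k) ((J k).piecewise η ω)
        = cnt (J k) η + ∑ i ∈ I k \ J k, (if ω i then (1:ℝ) else 0) := by
      unfold cnt
      rw [← Finset.sum_sdiff (hJI k), add_comm]
      congr 1
      · refine Finset.sum_congr rfl fun i hi => ?_
        rw [Finset.piecewise_eq_of_mem _ _ _ hi]
      · refine Finset.sum_congr rfl fun i hi => ?_
        rw [Finset.piecewise_eq_of_notMem _ _ _ (Finset.mem_sdiff.mp hi).2]
    simp only [hP, h2]
    have h3 : c k + (cnt (J k) η + ∑ i ∈ I k \ J k, (if ω i then (1:ℝ) else 0)) - m * (t k) ^ d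
        = cnt (J k) η - (m * (t k) ^ d - c k - ∑ i ∈ I k \ J k, (if ω i then (1:ℝ) else 0)) := by
      ring
    rw [h3]) K le_rfl
  have hfin := vol_pattern_le A (fun i => meas_corner _ _ _) (fun i u hu => hu.1) p hp0 hp1
    (fun i => vol_corner (a i) (fun _ => T i) hh0)
    ((univ : Finset (Fin m → Bool)).filter fun ω => ∀ k < K, P k ω) E (by
      intro u hu
      refine ⟨hu.1, fun i => decide (u i ∈ A i), ?_, fun i => by simp⟩
      rw [Finset.mem_filter]
      refine ⟨Finset.mem_univ _, fun k hk => ?_⟩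
      obtain ⟨-, h1, h2⟩ := hJK k hk
      have h3 := hu.2 (t k) (by have := hs0 k; linarith) (by have := hsk k hk; linarith)
      have h4 : (((univ : Finset (Fin m)).filter fun i => ∀ j, a i j + h * u i j ≤ t k).card : ℝ)
          = c k + cnt (I k) (fun i => decide (u i ∈ A i)) := by
        have h5 : ((univ : Finset (Fin m)).filter fun i => ∀ j, a i j + h * u i j ≤ t k)
            = ((univ : Finset (Fin m)).filter fun i => M i ≤ t k - h) ∪
              ((I k).filter fun i => u i ∈ A i) := by
          ext i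
          simp only [Finset.mem_filter, Finset.mem_univ, true_and, Finset.mem_union]
          constructor
          · intro hi
            rcases le_or_gt (M i) (t k - h) with h6 | h6
            · exact Or.inl h6
            · right
              have h7 : M i ≤ t k := by
                have h8 : 0 ≤ u i (j₀ i) := (hu.1 i).1 (j₀ i)
                have h9 : 0 ≤ h * u i (j₀ i) := by positivity
                have := hi (j₀ i)
                simp only [hMd]
                linarith
              have hiI : i ∈ I k := by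
                simp only [hI, Finset.mem_filter, Finset.mem_univ, true_and]
                exact ⟨h6, h7⟩
              refine ⟨hiI, ?_⟩
              simp only [hA, Set.mem_ofPred_eq, hT]
              rw [hκI k hk i hiI]
              exact ⟨hu.1 i, hi⟩
          · rintro (h6 | ⟨hiI, h6⟩)
            · intro j
              have h8 : u i j ≤ 1 := (hu.1 i).2 j
              have h9 : h * u i j ≤ h * 1 := mul_le_mul_of_nonneg_left h8 hh0.le
              have := hMle i j
              linarith
            · simp only [hA, Set.mem_ofPred_eq, hT] at h6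
              rw [hκI k hk i hiI] at h6
              exact h6.2
        rw [h5, Finset.card_union_of_disjoint]
        · push_cast
          congr 1
          unfold cnt
          rw [Finset.card_filter]
          push_cast
          refine Finset.sum_congr rfl fun i _ => ?_
          simp
        · rw [Finset.disjoint_left]
          intro i hi hi'
          simp only [hI, Finset.mem_filter, Finset.mem_univ, true_and] at hi hi'
          linarith [hi'.1.1]
      rw [h4] at h3
      simp only [hP]
      linarith)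
  refine hfin.trans (ENNReal.ofReal_le_ofReal ?_)
  refine le_trans (le_of_eq ?_) hblocks
  rw [Finset.sum_filter]
  refine Finset.sum_congr rfl fun ω _ => ?_
  split_ifs <;> simp

end Pool.Agent.U180.SN
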