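import Pool.Agent.U180.SN.Union

/-! # Choice of the parameters -/

open Finset MeasureTheory Filter Topology

set_option linter.unusedSectionVars false

namespace Pool.Agent.U180.SN

lemma pow_bound {n K : ℕ} (hK : n / 8 = K) (hn : 512 ≤ Real.log n) :
    (1 - 1 / 4 * Real.exp (-(Real.log n / 4))) ^ K ≤ Real.exp (-Real.sqrt n) := by
  have hn0 : (0:ℝ) < n := by
    by_contra hcon
    have : (n:ℝ) = 0 := le_antisymm (not_lt.mp hcon) (Nat.cast_nonneg n)
    rw [this, Real.log_zero] at hn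
    linarith
  set y : ℝ := Real.exp (Real.log n / 4) with hy
  have hy0 : 0 < y := Real.exp_pos _
  have hy4 : y ^ 4 = n := by
    rw [hy, ← Real.exp_nat_mul]
    have : ((4:ℕ):ℝ) * (Real.log n / 4) = Real.log n := by push_cast; ring
    rw [this, Real.exp_log hn0]
  have hy64 : 64 ≤ y := by
    have := Real.add_one_le_exp (Real.log n / 4)
    rw [← hy] at this
    linarith
  have hsq : Real.sqrt n = y ^ 2 := by
    rw [← hy4]
    have : y ^ 4 = (y ^ 2) ^ 2 := by ring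
    rw [this, Real.sqrt_sq (by positivity)]
  have hn16 : (16:ℝ) ≤ n := by
    rw [← hy4]
    have : (64:ℝ) ^ 4 ≤ y ^ 4 := pow_le_pow_left₀ (by norm_num) hy64 4
    linarith [this, (by norm_num : (16:ℝ) ≤ 64 ^ 4)]
  have hKn : (n:ℝ) / 16 ≤ K := by
    have h1 : n < 8 * (K + 1) := by omega
    have h2 : (n:ℝ) < 8 * (K + 1) := by exact_mod_cast h1
    linarith
  rw [Real.exp_neg, ← hy]
  have h1 : 1 - 1 / 4 * y⁻¹ ≤ Real.exp (-(1 / 4 * y⁻¹)) := by
    have := Real.add_one_le_exp (-(1 / 4 * y⁻¹))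
    linarith
  have h0 : 0 ≤ 1 - 1 / 4 * y⁻¹ := by
    have : y⁻¹ ≤ 1 := inv_le_one_of_one_le₀ (by linarith)
    linarith
  calc (1 - 1 / 4 * y⁻¹) ^ K ≤ (Real.exp (-(1 / 4 * y⁻¹))) ^ K := pow_le_pow_left₀ h0 h1 K
    _ = Real.exp (-(K * (1 / 4 * y⁻¹))) := by
        rw [← Real.exp_nat_mul]
        congr 1
        ring
    _ ≤ Real.exp (-Real.sqrt n) := by
        refine Real.exp_le_exp.mpr (neg_le_neg ?_)
        rw [hsq]
        have h2 : y ^ 4 / 16 ≤ K := by rw [hy4]; exact hKn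
        have h3 : y ^ 4 / 16 * (1 / 4 * y⁻¹) = y ^ 3 / 64 := by field_simp; norm_num
        have h4 : y ^ 4 / 16 * (1 / 4 * y⁻¹) ≤ K * (1 / 4 * y⁻¹) :=
          mul_le_mul_of_nonneg_right h2 (by positivity)
        have h5 : y ^ 2 ≤ y ^ 3 / 64 := by
          have : 64 * y ^ 2 ≤ y * y ^ 2 := mul_le_mul_of_nonneg_right hy64 (by positivity)
          have e : y * y ^ 2 = y ^ 3 := by ring
          linarith
        linarith

theorem lower_num {d : ℕ} (hd : 1 ≤ d) : ∃ c : ℝ, 0 < c ∧ c ≤ 1 ∧ ∃ n₀ : ℕ, 1 ≤ n₀ ∧ ∀ m n : ℕ, n₀ ≤ n →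
    n * Real.log n ≤ c * m → ∀ a : Fin m → Fin d → ℝ,
    volume {u : Fin m → Fin d → ℝ | (∀ i, u i ∈ Set.Icc (0 : Fin d → ℝ) 1) ∧
      ∀ t : ℝ, 0 ≤ t → t < 1 →
        |(((univ : Finset (Fin m)).filter fun i => ∀ j, a i j + 1 / n * u i j ≤ t).card : ℝ)
          - m * t ^ d| ≤ m * (c * Real.sqrt (Real.log n / (n * m)))}
      ≤ ENNReal.ofReal (Real.exp (-Real.sqrt n)) := by
  set Q : ℝ := (1 / 2 : ℝ) ^ d with hQ
  have hQ0 : 0 < Q := by positivity
  have hQ1 : Q ≤ 1 := pow_le_one₀ (by norm_num) (by norm_num)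
  have hQh : Q ≤ 1 / 2 := by
    calc Q ≤ (1 / 2 : ℝ) ^ 1 := pow_le_pow_of_le_one (by norm_num) (by norm_num) hd
      _ = 1 / 2 := by norm_num
  have hA : (1 / 4 : ℝ) ^ d = Q ^ 2 := by
    rw [hQ, ← pow_mul, mul_comm, pow_mul]
    norm_num
  have hQd : (1 / 2 : ℝ) ^ (d - 1) = 2 * Q := by
    obtain ⟨e, rfl⟩ : ∃ e, d = e + 1 := ⟨d - 1, by omega⟩
    rw [hQ, Nat.add_sub_cancel, pow_succ]
    ring
  have hQ3 : Q ^ 3 ≤ 1 := pow_le_one₀ hQ0.le hQ1
  refine ⟨Q ^ 3 / 256, by positivity, by linarith, ⌈Real.exp (128 / Q ^ 2)⌉₊ + 1, by omega, ?_⟩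
  intro m n hn hnm a
  have hn1 : Real.exp (128 / Q ^ 2) ≤ n := by
    have h1 := Nat.le_ceil (Real.exp (128 / Q ^ 2))
    have h2 : ((⌈Real.exp (128 / Q ^ 2)⌉₊ : ℕ) : ℝ) ≤ n := by exact_mod_cast (by omega)
    linarith
  have hn0 : (0:ℝ) < n := lt_of_lt_of_le (Real.exp_pos _) hn1
  have hn1' : 1 ≤ n := by exact_mod_cast (Nat.one_le_iff_ne_zero.mpr (by
    rintro rfl
    simp at hn0))
  set L : ℝ := Real.log n with hL
  have hLl : 128 / Q ^ 2 ≤ L := by
    rw [hL, Real.le_log_iff_exp_le hn0]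
    exact hn1
  have hQ2 : Q ^ 2 ≤ 1 / 4 := by nlinarith
  have hL512 : 512 ≤ L := by
    have : (512:ℝ) ≤ 128 / Q ^ 2 := by
      rw [le_div_iff₀ (by positivity)]
      linarith
    linarith
  have hQL : 128 ≤ Q ^ 2 * L := by
    rw [div_le_iff₀ (by positivity)] at hLl
    linarith
  have hm0 : (0:ℝ) < m := by
    by_contra hcon
    have : (m:ℝ) = 0 := le_antisymm (not_lt.mp hcon) (Nat.cast_nonneg m)
    rw [this, mul_zero] at hnm
    have : 0 < n * L := by positivity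
    linarith
  set X : ℝ := m * Q / (4 * n) with hX
  have hXL : 64 * L ≤ Q ^ 2 * X := by
    rw [hX, mul_div_assoc', le_div_iff₀ (by positivity)]
    nlinarith
  have hX1 : 64 * L ≤ X := by
    have h1 : 0 ≤ X := by positivity
    have h2 : Q ^ 2 * X ≤ 1 * X := mul_le_mul_of_nonneg_right (by linarith) h1
    linarith
  set N : ℕ := ⌊X⌋₊ with hN
  have hNX : (N:ℝ) ≤ X := Nat.floor_le (by positivity)
  have hXN : X / 2 ≤ N := by
    have := Nat.lt_floor_add_one X
    rw [← hN] at this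
    linarith
  have hN0 : (0:ℝ) < N := by linarith
  set δ : ℝ := Real.sqrt (Q ^ 2 / 8 * L / N) with hδ
  have hδ2 : δ ^ 2 = Q ^ 2 / 8 * L / N := Real.sq_sqrt (by positivity)
  have hδN : δ ^ 2 * N = Q ^ 2 / 8 * L := by rw [hδ2]; field_simp
  have hδ0 : 0 < δ := Real.sqrt_pos.mpr (by positivity)
  have key := lower_core (K := n / 8) (N := N) hd hn1' (by omega) a (δ := δ)
    (lam := Q ^ 3 / 256 * Real.sqrt (L / (n * m))) hδ0 (by
      rw [hA]
      refine Real.sqrt_le_iff.mpr ⟨by positivity, ?_⟩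
      rw [div_le_iff₀ hN0]
      have h1 : Q ^ 2 * (X / 2) ≤ Q ^ 2 * N := mul_le_mul_of_nonneg_left hXN (by positivity)
      have h2 : L ≤ Q ^ 2 * N := by linarith
      have h3 : Q ^ 2 * L ≤ Q ^ 2 * (Q ^ 2 * N) := mul_le_mul_of_nonneg_left h2 (by positivity)
      have h4 : 0 ≤ Q ^ 2 * L := by positivity
      calc Q ^ 2 / 8 * L = Q ^ 2 * L / 8 := by ring
        _ ≤ Q ^ 2 * L := by linarith
        _ ≤ _ := h3
        _ = (Q ^ 2) ^ 2 * N := by ring) (by rw [hδN]; linarith) (by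
      have h1 : (m * (Q ^ 3 / 256 * Real.sqrt (L / (n * m)))) ^ 2 ≤ (δ * N / 2) ^ 2 := by
        rw [mul_pow, mul_pow, Real.sq_sqrt (by positivity)]
        have h2 : (δ * N / 2) ^ 2 = (δ ^ 2 * N) * N / 4 := by ring
        rw [h2, hδN]
        have h3 : (m:ℝ) ^ 2 * ((Q ^ 3 / 256) ^ 2 * (L / (n * m))) = Q ^ 5 / 16384 * L * X := by
          rw [hX]; field_simp; norm_num
        rw [h3]
        have h4 : Q ^ 5 ≤ Q ^ 2 := pow_le_pow_of_le_one hQ0.le hQ1 (by norm_num)
        calc Q ^ 5 / 16384 * L * X ≤ Q ^ 2 / 16384 * L * X := by gcongr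
          _ ≤ Q ^ 2 / 8 * L * (X / 2) / 4 := by
            have h5 : 0 ≤ Q ^ 2 * L * X := by positivity
            linarith
          _ ≤ Q ^ 2 / 8 * L * N / 4 := by gcongr
      exact le_of_sq_le_sq h1 (by positivity)) (by
      rw [hQd]
      have h1 : 2 * (m * (Q ^ 3 / 256 * Real.sqrt (L / (n * m)))) ≤ m * (Q / n) := by
        have h2 : (2 * (m * (Q ^ 3 / 256 * Real.sqrt (L / (n * m))))) ^ 2 ≤ (m * (Q / n)) ^ 2 := by
          rw [mul_pow, mul_pow, mul_pow (Q ^ 3 / 256), Real.sq_sqrt (by positivity)]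
          have h3 : (2:ℝ) ^ 2 * (m ^ 2 * ((Q ^ 3 / 256) ^ 2 * (L / (n * m))))
              = m * (n * L) * (Q ^ 6 / 16384) / n ^ 2 := by field_simp; norm_num
          have h4 : (m * (Q / n)) ^ 2 = m ^ 2 * Q ^ 2 / n ^ 2 := by field_simp
          rw [h3, h4]
          refine div_le_div_of_nonneg_right ?_ (by positivity)
          have h5 : Q ^ 6 ≤ Q ^ 2 := pow_le_pow_of_le_one hQ0.le hQ1 (by norm_num)
          calc m * (n * L) * (Q ^ 6 / 16384) ≤ m * (Q ^ 3 / 256 * m) * (Q ^ 6 / 16384) := by gcongr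
            _ ≤ m * (1 * m) * (Q ^ 2 / 1) := by
                gcongr
                · linarith
                · norm_num
            _ = m ^ 2 * Q ^ 2 := by ring
        exact le_of_sq_le_sq h2 (by positivity)
      have h6 : (4:ℝ) * N ≤ m * (Q / n) := by
        calc (4:ℝ) * N ≤ 4 * X := by linarith
          _ = m * (Q / n) := by rw [hX]; field_simp
      have h7 : (m:ℝ) * (1 / n * (2 * Q)) = 2 * (m * (Q / n)) := by ring
      rw [h7]
      linarith)
  refine key.trans (ENNReal.ofReal_le_ofReal ?_)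
  have e1 : 2 * N * δ ^ 2 / (1 / 4) ^ d = L / 4 := by
    rw [hA]
    have : 2 * N * δ ^ 2 = 2 * (δ ^ 2 * N) := by ring
    rw [this, hδN]
    field_simp
    norm_num
  rw [e1]
  exact pow_bound rfl hL512

theorem upper_num {d : ℕ} (hd : 1 ≤ d) : ∃ C : ℝ, 1 ≤ C ∧ ∀ m n : ℕ, 2 ≤ m → 1 ≤ n →
    ∀ p : Fin m → Fin d → ℝ, (∀ i j, 0 ≤ p i j) → ∀ D : ℝ, 0 ≤ D → HasDisc p D →
    volume {u : Fin m → Fin d → ℝ | (∀ i, u i ∈ Set.Icc (0 : Fin d → ℝ) 1) ∧
      ∃ x : Fin d → ℝ, (∀ j, 0 ≤ x j) ∧ (∀ j, x j ≤ 1) ∧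
        m * (C * (D + Real.sqrt (Real.log m / (n * m)) + Real.log m / m))
          < |cornerCount n p u x - m * ∏ j, x j|}
      ≤ ENNReal.ofReal (1 / m) := by
  set e : ℝ := 2 * d + 2 with he
  have hd1 : (1:ℝ) ≤ d := by exact_mod_cast hd
  have he4 : 4 ≤ e := by rw [he]; linarith
  have hed : 4 ≤ e * d := by nlinarith
  refine ⟨10 * e * d, by nlinarith, ?_⟩
  intro m n hm hn p hp0 D hD0 hD
  have hm2 : (2:ℝ) ≤ m := by exact_mod_cast hm
  have hm0 : (0:ℝ) < m := by linarith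
  have hn0 : (0:ℝ) < n := by exact_mod_cast hn
  set L : ℝ := Real.log m with hL
  have hLh : 1 / 2 ≤ L := by
    have h1 : Real.log 2 ≤ L := Real.log_le_log (by norm_num) hm2
    have h2 := Real.log_two_gt_d9
    linarith
  have hL0 : 0 < L := by linarith
  have hmD : 0 ≤ m * D := by positivity
  set B : ℝ := d * (m / n + 4 * (m * D)) + e * L with hB
  have hB0 : 0 < B := by positivity
  have heB : e * L ≤ B := by
    have : 0 ≤ d * (m / n + 4 * (m * D)) := by positivity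
    linarith
  set s : ℝ := Real.sqrt (e * L / B) with hs
  set τ : ℝ := 2 * Real.sqrt (e * L * B) with hτ
  have hs0 : 0 < s := Real.sqrt_pos.mpr (by positivity)
  have hs1 : s ≤ 1 := by
    rw [hs]
    refine Real.sqrt_le_iff.mpr ⟨zero_le_one, ?_⟩
    rw [one_pow, div_le_one hB0]
    exact heB
  have hs2 : s ^ 2 = e * L / B := Real.sq_sqrt (by positivity)
  have hsB : s ^ 2 * B = e * L := by rw [hs2]; field_simp
  have hsτ : s * τ = 2 * (e * L) := by
    rw [hs, hτ]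
    have : Real.sqrt (e * L / B) * Real.sqrt (e * L * B) = e * L := by
      rw [← Real.sqrt_mul (by positivity)]
      have : e * L / B * (e * L * B) = (e * L) ^ 2 := by field_simp
      rw [this, Real.sqrt_sq (by positivity)]
    calc _ = 2 * (Real.sqrt (e * L / B) * Real.sqrt (e * L * B)) := by ring
      _ = _ := by rw [this]
  have hcore := upper_core (by omega) hn p hp0 hD hmD (B := B) (by rw [hB]; nlinarith) hs0 hs1 (τ := τ)
  set w : ℝ := Real.sqrt (L * m / n) with hw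
  have hw2 : w ^ 2 = L * m / n := Real.sq_sqrt (by positivity)
  have hw0 : 0 ≤ w := Real.sqrt_nonneg _
  have hwm : m * Real.sqrt (L / (n * m)) = w := by
    rw [hw]
    have : L * m / n = m ^ 2 * (L / (n * m)) := by field_simp
    rw [this, Real.sqrt_mul (by positivity), Real.sqrt_sq hm0.le]
  have hτR : τ ≤ 2 * (e * d) * w + (4 * (e * d) * L + m * D) + 2 * e * L := by
    have h1 : τ ^ 2 ≤ (2 * (e * d) * w + (4 * (e * d) * L + m * D) + 2 * e * L) ^ 2 := by
      have h2 : τ ^ 2 = 4 * (e * L * B) := by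
        rw [hτ, mul_pow, Real.sq_sqrt (by positivity)]
        norm_num
      rw [h2, hB]
      have h3 : 0 ≤ (e * d) * w := by positivity
      have h4 : 0 ≤ (4 * (e * d) * L + m * D) := by positivity
      have h5 : 0 ≤ 2 * e * L := by positivity
      have h6 : (2 * (e * d) * w) ^ 2 + (4 * (e * d) * L + m * D) ^ 2 + (2 * e * L) ^ 2
          ≤ (2 * (e * d) * w + (4 * (e * d) * L + m * D) + 2 * e * L) ^ 2 := by
        have h7 : 0 ≤ (2 * (e * d) * w) * (4 * (e * d) * L + m * D) := by positivity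
        have h8 : 0 ≤ (2 * (e * d) * w) * (2 * e * L) := by positivity
        have h9 : 0 ≤ (4 * (e * d) * L + m * D) * (2 * e * L) := by positivity
        nlinarith
      refine le_trans ?_ h6
      have h10 : (2 * (e * d) * w) ^ 2 = 4 * (e * d) ^ 2 * (L * m / n) := by
        rw [mul_pow, hw2]; ring
      have h11 : 4 * (e * d) * (L * m / n) ≤ 4 * (e * d) ^ 2 * (L * m / n) := by
        have : (e * d) ≤ (e * d) ^ 2 := by nlinarith
        have h12 : 0 ≤ L * m / n := by positivity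
        nlinarith
      have h13 : 4 * ((4 * (e * d) * L) * (m * D)) ≤ (4 * (e * d) * L + m * D) ^ 2 := by
        nlinarith [sq_nonneg (4 * (e * d) * L - m * D)]
      rw [h10]
      calc 4 * (e * L * (d * (m / n + 4 * (m * D)) + e * L))
          = 4 * (e * d) * (L * m / n) + 4 * ((4 * (e * d) * L) * (m * D)) + (2 * e * L) ^ 2 := by
            field_simp
            ring
        _ ≤ _ := by linarith
    exact le_of_sq_le_sq h1 (by positivity)
  refine (measure_mono ?_).trans (hcore.trans (ENNReal.ofReal_le_ofReal ?_))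
  · rintro u ⟨huc, x, hx0, hx1, hx⟩
    refine ⟨huc, x, hx0, hx1, lt_of_le_of_lt ?_ hx⟩
    have e1 : m * (10 * e * d * (D + Real.sqrt (L / (n * m)) + L / m))
        = 10 * (e * d) * (m * D) + 10 * (e * d) * (m * Real.sqrt (L / (n * m))) + 10 * (e * d) * L := by
      field_simp
    rw [e1, hwm]
    have h1 : (4 : ℝ) * (m * D) ≤ (e * d) * (m * D) := mul_le_mul_of_nonneg_right hed hmD
    have h2 : e * L ≤ (e * d) * L := by
      refine mul_le_mul_of_nonneg_right ?_ hL0.le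
      nlinarith
    have h3 : (d:ℝ) ≤ (e * d) * L := by
      have : (1:ℝ) ≤ e * L := by nlinarith
      nlinarith
    have h4 : 0 ≤ (e * d) * w := by positivity
    have h5 : 0 ≤ (e * d) * L := by positivity
    linarith
  · rw [hsB, hsτ]
    have e1 : e * L - 2 * (e * L) = -((2 * d + 2 : ℕ) * L) := by rw [he]; push_cast; ring
    rw [e1, Real.exp_neg, Real.exp_nat_mul, hL, Real.exp_log hm0]
    rw [← div_eq_mul_inv, div_le_div_iff₀ (by positivity) hm0, one_mul]
    have h1 : ((m:ℝ) + 1) ^ d ≤ (m ^ 2) ^ d := by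
      refine pow_le_pow_left₀ (by positivity) ?_ d
      nlinarith
    calc 2 * ((m:ℝ) + 1) ^ d * m ≤ m * (m ^ 2) ^ d * m := by gcongr
      _ = (m:ℝ) ^ (2 * d + 2) := by rw [← pow_mul]; ring

end Pool.Agent.U180.SN
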