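import Mathlib

/-! # Product weights on patterns of zeros and ones -/

open Finset MeasureTheory

set_option linter.unusedSectionVars false

namespace Pool.Agent.U180.SN

section gen
variable {ι : Type*} [Fintype ι] [DecidableEq ι]

/-- the weight of one symbol -/
noncomputable def w1 (p : ℝ) (b : Bool) : ℝ := if b then p else 1 - p

/-- the weight of a pattern when the coordinates are independent and coordinate `i` is `true` with
probability `p i` -/
noncomputable def wt (p : ι → ℝ) (ω : ι → Bool) : ℝ := ∏ i, w1 (p i) (ω i)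

lemma w1_nonneg {p : ℝ} (h0 : 0 ≤ p) (h1 : p ≤ 1) (b : Bool) : 0 ≤ w1 p b := by
  cases b
  · simp only [w1]; simp; linarith
  · simp only [w1]; simpa using h0

lemma w1_pos {p : ℝ} (h0 : 0 < p) (h1 : p < 1) (b : Bool) : 0 < w1 p b := by
  cases b
  · simp only [w1]; simp; linarith
  · simp only [w1]; simpa using h0

lemma w1_sum (p : ℝ) : ∑ b, w1 p b = 1 := by
  simp [w1]

lemma wt_nonneg {p : ι → ℝ} (h0 : ∀ i, 0 ≤ p i) (h1 : ∀ i, p i ≤ 1) (ω : ι → Bool) :
    0 ≤ wt p ω := Finset.prod_nonneg fun i _ => w1_nonneg (h0 i) (h1 i) _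

/-- product weights: the sum of a product of one-coordinate functions -/
lemma sum_prod_gen (g : ι → Bool → ℝ) :
    ∑ ω : ι → Bool, ∏ i, g i (ω i) = ∏ i, ∑ b, g i b := by
  rw [Finset.prod_univ_sum, Fintype.piFinset_univ]

lemma wt_sum (p : ι → ℝ) : ∑ ω : ι → Bool, wt p ω = 1 := by
  unfold wt
  rw [sum_prod_gen (fun i b => w1 (p i) b)]
  exact Finset.prod_eq_one fun i _ => w1_sum (p i)

lemma wt_mul_sum (p : ι → ℝ) (g : ι → Bool → ℝ) :
    ∑ ω : ι → Bool, wt p ω * ∏ i, g i (ω i) = ∏ i, (p i * g i true + (1 - p i) * g i false) := by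
  unfold wt
  have : ∀ ω : ι → Bool, (∏ i, w1 (p i) (ω i)) * ∏ i, g i (ω i)
      = ∏ i, (w1 (p i) (ω i) * g i (ω i)) := fun ω => by rw [Finset.prod_mul_distrib]
  simp_rw [this]
  rw [sum_prod_gen (fun i b => w1 (p i) b * g i b)]
  refine Finset.prod_congr rfl fun i _ => ?_
  simp [w1]

/-- resampling the coordinates of `J` -/
lemma resample_block (p : ι → ℝ) (J : Finset ι) (H : (ι → Bool) → ℝ) :
    ∑ ω : ι → Bool, wt p ω * H ω
      = ∑ ω : ι → Bool, wt p ω * ∑ η : ι → Bool, wt p η * H (J.piecewise η ω) := by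
  have h1 : ∑ ω : ι → Bool, wt p ω * ∑ η : ι → Bool, wt p η * H (J.piecewise η ω)
      = ∑ x : (ι → Bool) × (ι → Bool), wt p x.1 * wt p x.2 * H (J.piecewise x.2 x.1) := by
    rw [Fintype.sum_prod_type]
    refine Finset.sum_congr rfl fun ω _ => ?_
    rw [Finset.mul_sum]
    refine Finset.sum_congr rfl fun η _ => ?_
    ring
  have h2 : ∑ ω : ι → Bool, wt p ω * H ω
      = ∑ x : (ι → Bool) × (ι → Bool), wt p x.1 * wt p x.2 * H x.1 := by
    rw [Fintype.sum_prod_type]
    refine Finset.sum_congr rfl fun ω _ => ?_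
    calc wt p ω * H ω = wt p ω * H ω * ∑ η : ι → Bool, wt p η := by rw [wt_sum, mul_one]
      _ = _ := by
        rw [Finset.mul_sum]
        refine Finset.sum_congr rfl fun η _ => ?_
        ring
  rw [h1, h2]
  let f : (ι → Bool) × (ι → Bool) → (ι → Bool) × (ι → Bool) :=
    fun x => (J.piecewise x.2 x.1, J.piecewise x.1 x.2)
  have hf : Function.Involutive f := by
    intro x
    apply Prod.ext
    · funext i
      by_cases hi : i ∈ J <;> simp [f, hi]
    · funext i
      by_cases hi : i ∈ J <;> simp [f, hi]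
  have h3 := Equiv.sum_comp (Function.Involutive.toPerm f hf)
    (fun x : (ι → Bool) × (ι → Bool) => wt p x.1 * wt p x.2 * H x.1)
  rw [← h3]
  refine Finset.sum_congr rfl fun x _ => ?_
  have e1 : (Function.Involutive.toPerm f hf) x = f x := rfl
  rw [e1]
  have e2 : wt p (f x).1 * wt p (f x).2 = wt p x.1 * wt p x.2 := by
    unfold wt
    rw [← Finset.prod_mul_distrib, ← Finset.prod_mul_distrib]
    refine Finset.prod_congr rfl fun i _ => ?_
    by_cases hi : i ∈ J
    · simp [f, hi, mul_comm]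
    · simp [f, hi]
  rw [e2]

/-- one block: if, whatever the other coordinates, the conditional probability of `G` given the
coordinates outside of `J` is at most `q`, and `F` does not depend on `J` -/
lemma block_step {p : ι → ℝ} (h0 : ∀ i, 0 ≤ p i) (h1 : ∀ i, p i ≤ 1) (J : Finset ι)
    (F G : (ι → Bool) → ℝ) (hF0 : ∀ ω, 0 ≤ F ω)
    (hF : ∀ ω η, F (J.piecewise η ω) = F ω) {q : ℝ}
    (hG : ∀ ω, ∑ η : ι → Bool, wt p η * G (J.piecewise η ω) ≤ q) :
    ∑ ω : ι → Bool, wt p ω * (F ω * G ω) ≤ q * ∑ ω : ι → Bool, wt p ω * F ω := by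
  rw [resample_block p J (fun ω => F ω * G ω), Finset.mul_sum]
  refine Finset.sum_le_sum fun ω _ => ?_
  have : ∑ η : ι → Bool, wt p η * (F (J.piecewise η ω) * G (J.piecewise η ω))
      = F ω * ∑ η : ι → Bool, wt p η * G (J.piecewise η ω) := by
    rw [Finset.mul_sum]
    refine Finset.sum_congr rfl fun η _ => ?_
    rw [hF]
    ring
  rw [this]
  calc wt p ω * (F ω * ∑ η : ι → Bool, wt p η * G (J.piecewise η ω))
      ≤ wt p ω * (F ω * q) :=
        mul_le_mul_of_nonneg_left (mul_le_mul_of_nonneg_left (hG ω) (hF0 ω)) (wt_nonneg h0 h1 ω)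
    _ = q * (wt p ω * F ω) := by ring

/-- many blocks -/
lemma block_all {p : ι → ℝ} (h0 : ∀ i, 0 ≤ p i) (h1 : ∀ i, p i ≤ 1) {K : ℕ}
    (J I : ℕ → Finset ι) (hJI : ∀ k, J k ⊆ I k)
    (hdisj : ∀ k < K, ∀ l < K, k ≠ l → Disjoint (I k) (I l))
    (P : ℕ → (ι → Bool) → Prop) [∀ k ω, Decidable (P k ω)]
    (hP : ∀ k, ∀ ω η : ι → Bool, (∀ i ∈ I k, ω i = η i) → (P k ω ↔ P k η)) {q : ℝ} (hq0 : 0 ≤ q)
    (hq : ∀ k < K, ∀ ω, ∑ η : ι → Bool, wt p η * (if P k ((J k).piecewise η ω) then (1:ℝ) else 0) ≤ q) :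
    ∀ L ≤ K, ∑ ω : ι → Bool, wt p ω * (if ∀ k < L, P k ω then (1:ℝ) else 0) ≤ q ^ L := by
  intro L
  induction L with
  | zero =>
    intro _
    simp [wt_sum]
  | succ L ih =>
    intro hL
    have h2 : ∀ ω : ι → Bool, (if ∀ k < L + 1, P k ω then (1:ℝ) else 0)
        = (if ∀ k < L, P k ω then (1:ℝ) else 0) * (if P L ω then (1:ℝ) else 0) := by
      intro ω
      by_cases hA : ∀ k < L, P k ω
      · by_cases hB : P L ω
        · have : ∀ k < L + 1, P k ω := by
            intro k hk
            rcases Nat.lt_succ_iff_lt_or_eq.mp hk with h | h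
            · exact hA k h
            · rw [h]; exact hB
          rw [if_pos this, if_pos hA, if_pos hB, one_mul]
        · have : ¬ ∀ k < L + 1, P k ω := fun h => hB (h L (Nat.lt_succ_self L))
          rw [if_neg this, if_neg hB, mul_zero]
      · have : ¬ ∀ k < L + 1, P k ω := fun h => hA fun k hk => h k (by omega)
        rw [if_neg this, if_neg hA, zero_mul]
    simp_rw [h2]
    calc _ ≤ q * ∑ ω : ι → Bool, wt p ω * (if ∀ k < L, P k ω then (1:ℝ) else 0) := by
          refine block_step h0 h1 (J L) _ _ (fun ω => by positivity) ?_ (hq L (by omega))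
          intro ω η
          have : (∀ k < L, P k ((J L).piecewise η ω)) ↔ ∀ k < L, P k ω := by
            refine forall_congr' fun k => forall_congr' fun hk => ?_
            refine hP k _ _ fun i hi => ?_
            have hnot : i ∉ J L := by
              intro hi'
              exact (Finset.disjoint_left.mp (hdisj k (by omega) L (by omega) (by omega))) hi
                (hJI L hi')
            exact Finset.piecewise_eq_of_notMem _ _ _ hnot
          simp only [this]
      _ ≤ q * q ^ L := mul_le_mul_of_nonneg_left (ih (by omega)) hq0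
      _ = q ^ (L + 1) := by ring

end gen

section meas
variable {ι : Type*} [Fintype ι] [DecidableEq ι] {d : ℕ}

/-- the volume of an event which depends only on the pattern of memberships `u i ∈ A i` -/
lemma vol_pattern_le (A : ι → Set (Fin d → ℝ)) (hA : ∀ i, MeasurableSet (A i))
    (hAc : ∀ i, A i ⊆ Set.Icc 0 1) (p : ι → ℝ) (h0 : ∀ i, 0 ≤ p i) (h1 : ∀ i, p i ≤ 1)
    (hp : ∀ i, volume (A i) = ENNReal.ofReal (p i)) (S : Finset (ι → Bool))
    (E : Set (ι → Fin d → ℝ))
    (hE : ∀ u ∈ E, (∀ i, u i ∈ Set.Icc (0 : Fin d → ℝ) 1) ∧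
      ∃ ω ∈ S, ∀ i, (ω i = true ↔ u i ∈ A i)) :
    volume E ≤ ENNReal.ofReal (∑ ω ∈ S, wt p ω) := by
  classical
  let B : ι → Bool → Set (Fin d → ℝ) := fun i b => if b then A i else Set.Icc 0 1 \ A i
  have hB : ∀ i b, volume (B i b) = ENNReal.ofReal (w1 (p i) b) := by
    intro i b
    cases b
    · have e : B i false = Set.Icc 0 1 \ A i := rfl
      rw [e, measure_sdiff (hAc i) (hA i).nullMeasurableSet (by rw [hp]; exact ENNReal.ofReal_ne_top),
        hp, Real.volume_Icc_pi]
      simp only [Pi.one_apply, Pi.zero_apply, sub_zero, ENNReal.ofReal_one, Finset.prod_const_one]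
      rw [w1, if_neg (by simp), ← ENNReal.ofReal_one, ENNReal.ofReal_sub _ (h0 i)]
    · have e : B i true = A i := rfl
      rw [e, hp, w1, if_pos rfl]
  have hsub : E ⊆ ⋃ ω ∈ S, Set.pi Set.univ (fun i => B i (ω i)) := by
    intro u hu
    obtain ⟨hc, ω, hω, h⟩ := hE u hu
    refine Set.mem_iUnion₂.mpr ⟨ω, hω, ?_⟩
    intro i _
    by_cases hi : ω i = true
    · have : B i (ω i) = A i := by rw [hi]; rfl
      show u i ∈ B i (ω i)
      rw [this]
      exact (h i).mp hi
    · have hi' : ω i = false := by simpa using hi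
      have : B i (ω i) = Set.Icc 0 1 \ A i := by rw [hi']; rfl
      show u i ∈ B i (ω i)
      rw [this]
      exact ⟨hc i, fun hx => hi ((h i).mpr hx)⟩
  calc volume E ≤ volume (⋃ ω ∈ S, Set.pi Set.univ (fun i => B i (ω i))) := measure_mono hsub
    _ ≤ ∑ ω ∈ S, volume (Set.pi Set.univ (fun i => B i (ω i))) := measure_biUnion_finset_le _ _
    _ = ∑ ω ∈ S, ENNReal.ofReal (wt p ω) := by
        refine Finset.sum_congr rfl fun ω _ => ?_
        rw [volume_pi, Measure.pi_pi]
        simp_rw [hB]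
        rw [wt, ENNReal.ofReal_prod_of_nonneg fun i _ => w1_nonneg (h0 i) (h1 i) _]
    _ = ENNReal.ofReal (∑ ω ∈ S, wt p ω) := by
        rw [ENNReal.ofReal_sum_of_nonneg fun ω _ => wt_nonneg h0 h1 ω]

end meas

end Pool.Agent.U180.SN
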