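import Pool.Agent.U180.SN.Push

/-! # Tails of sums of independent zero-one variables -/

open Finset MeasureTheory

set_option linter.unusedSectionVars false

namespace Pool.Agent.U180.SN

variable {ι : Type*} [Fintype ι] [DecidableEq ι]

/-- number of `true` coordinates in `J`, as a real number -/
noncomputable def cnt (J : Finset ι) (ω : ι → Bool) : ℝ := ∑ i ∈ J, (if ω i then (1:ℝ) else 0)

lemma exp_quad {x : ℝ} (hx : |x| ≤ 1) : Real.exp x ≤ 1 + x + x ^ 2 := by
  have h := Real.abs_exp_sub_one_sub_id_le hx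
  have := (abs_le.mp h).2
  linarith

lemma exp_cnt (J : Finset ι) (ω : ι → Bool) (s : ℝ) :
    Real.exp (s * cnt J ω) = ∏ i, (if i ∈ J then (if ω i then Real.exp s else 1) else 1) := by
  unfold cnt
  rw [Finset.mul_sum, Real.exp_sum, Finset.prod_ite_mem, Finset.univ_inter]
  refine Finset.prod_congr rfl fun i _ => ?_
  by_cases h : ω i = true
  · simp [h]
  · simp [h]

/-- tilting up -/
lemma tail_up {p : ι → ℝ} (h0 : ∀ i, 0 ≤ p i) (h1 : ∀ i, p i ≤ 1) (J : Finset ι) {a δ : ℝ}
    (ha0 : 0 < a) (hJ0 : ∀ i ∈ J, a ≤ p i) (hJ1 : ∀ i ∈ J, p i ≤ 1 - a) (hδ0 : 0 < δ) (hδ : δ ≤ a)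
    (hN : 16 ≤ δ ^ 2 * J.card) {T : ℝ} (hT : T ≤ ∑ i ∈ J, p i + δ * J.card / 2) :
    1 / 4 * Real.exp (-(2 * J.card * δ ^ 2 / a)) ≤
      ∑ η : ι → Bool, wt p η * (if T < cnt J η then (1:ℝ) else 0) := by
  have ha1 : a ≤ 1 / 2 := by
    have hne : J.Nonempty := by
      rw [Finset.nonempty_iff_ne_empty]
      rintro rfl
      norm_num at hN
    obtain ⟨i, hi⟩ := hne
    have := hJ0 i hi
    have := hJ1 i hi
    linarith
  set g : ι → Bool → ℝ := fun i b => if i ∈ J then w1 (p i + δ) b / w1 (p i) b else 1 with hg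
  set r : (ι → Bool) → ℝ := fun η => ∏ i, g i (η i) with hr
  have hpos : ∀ i ∈ J, ∀ b, 0 < w1 (p i) b := fun i hi b =>
    w1_pos (by have := hJ0 i hi; linarith) (by have := hJ1 i hi; linarith) b
  have hgnn : ∀ i b, 0 ≤ g i b := by
    intro i b
    simp only [hg]
    split_ifs with hi
    · refine div_nonneg (w1_nonneg ?_ ?_ b) (hpos i hi b).le
      · have := h0 i; linarith
      · have := hJ1 i hi; linarith
    · norm_num
  have hrnn : ∀ η, 0 ≤ r η := fun η => Finset.prod_nonneg fun i _ => hgnn i _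
  -- total mass of the tilted weight
  have hfac : ∀ i ∈ J, ∀ f : Bool → ℝ, p i * (g i true * f true) + (1 - p i) * (g i false * f false)
      = (p i + δ) * f true + (1 - (p i + δ)) * f false := by
    intro i hi f
    have e1 : p i ≠ 0 := by have := hJ0 i hi; linarith
    have e2 : 1 - p i ≠ 0 := by have := hJ1 i hi; linarith
    simp only [hg, if_pos hi, w1]
    simp only [if_true, Bool.false_eq_true, if_false]
    field_simp
  have htot : ∑ η : ι → Bool, wt p η * r η = 1 := by
    simp only [hr]
    rw [wt_mul_sum]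
    refine Finset.prod_eq_one fun i _ => ?_
    by_cases hi : i ∈ J
    · have := hfac i hi (fun _ => 1)
      simp only [mul_one] at this
      rw [this]
      ring
    · simp only [hg, if_neg hi]
      ring
  -- the complementary event under the tilted weight
  set s : ℝ := δ / 4 with hs
  have hs0 : 0 < s := by positivity
  have hs1 : s ≤ 1 := by rw [hs]; linarith
  set N : ℝ := (J.card : ℝ) with hNd
  have hNpos : 0 < N := by
    by_contra hcon
    push Not at hcon
    have : δ ^ 2 * N ≤ 0 := mul_nonpos_of_nonneg_of_nonpos (by positivity) hcon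
    linarith
  have hsumJ : ∑ i ∈ J, p i ≤ (1 - a) * N := by
    calc ∑ i ∈ J, p i ≤ ∑ _i ∈ J, (1 - a) := Finset.sum_le_sum hJ1
      _ = (1 - a) * N := by rw [Finset.sum_const, nsmul_eq_mul]; ring
  have hcomp : ∑ η : ι → Bool, wt p η * (r η * (if T < cnt J η then (0:ℝ) else 1)) ≤ 1 / 2 := by
    have hb : ∑ η : ι → Bool, wt p η * (r η * (if T < cnt J η then (0:ℝ) else 1))
        ≤ ∑ η : ι → Bool, Real.exp (s * T) * (wt p η *
            ∏ i, (g i (η i) * (if i ∈ J then (if η i then Real.exp (-s) else 1) else 1))) := by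
      refine Finset.sum_le_sum fun η _ => ?_
      have e1 : ∏ i, (g i (η i) * (if i ∈ J then (if η i then Real.exp (-s) else 1) else 1))
          = r η * Real.exp (-s * cnt J η) := by
        rw [Finset.prod_mul_distrib, exp_cnt]
      rw [e1]
      have e2 : (if T < cnt J η then (0:ℝ) else 1) ≤ Real.exp (s * T) * Real.exp (-s * cnt J η) := by
        rw [← Real.exp_add]
        split_ifs with h
        · exact (Real.exp_pos _).le
        · push Not at h
          refine Real.one_le_exp ?_
          nlinarith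
      calc wt p η * (r η * (if T < cnt J η then (0:ℝ) else 1))
          ≤ wt p η * (r η * (Real.exp (s * T) * Real.exp (-s * cnt J η))) :=
            mul_le_mul_of_nonneg_left (mul_le_mul_of_nonneg_left e2 (hrnn η)) (wt_nonneg h0 h1 η)
        _ = _ := by ring
    refine hb.trans ?_
    rw [← Finset.mul_sum, wt_mul_sum p (fun i b => g i b * (if i ∈ J then (if b then Real.exp (-s) else 1) else 1))]
    have hprod : ∏ i, (p i * (g i true * (if i ∈ J then (if (true : Bool) then Real.exp (-s) else 1) else 1))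
          + (1 - p i) * (g i false * (if i ∈ J then (if (false : Bool) then Real.exp (-s) else 1) else 1)))
        = ∏ i ∈ J, ((p i + δ) * Real.exp (-s) + (1 - (p i + δ))) := by
      rw [← Finset.prod_subset (Finset.subset_univ J)]
      · refine Finset.prod_congr rfl fun i hi => ?_
        have := hfac i hi (fun b => if b then Real.exp (-s) else 1)
        simp only [if_pos hi]
        simp at this ⊢
        linarith
      · intro i _ hi
        simp only [if_neg hi, hg]
        ring
    rw [hprod]
    have hpb : ∏ i ∈ J, ((p i + δ) * Real.exp (-s) + (1 - (p i + δ)))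
        ≤ ∏ i ∈ J, Real.exp ((p i + δ) * (-s + s ^ 2)) := by
      refine Finset.prod_le_prod (fun i hi => ?_) fun i hi => ?_
      · have := h0 i
        have := hJ1 i hi
        have := Real.exp_pos (-s)
        have h3 : 0 ≤ (p i + δ) * Real.exp (-s) := by positivity
        linarith
      · have h2 : Real.exp (-s) ≤ 1 + (-s) + (-s) ^ 2 := exp_quad (by rw [abs_neg, abs_of_pos hs0]; exact hs1)
        have h3 : 0 ≤ p i + δ := by have := h0 i; linarith
        calc (p i + δ) * Real.exp (-s) + (1 - (p i + δ))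
            ≤ (p i + δ) * (1 + (-s) + (-s) ^ 2) + (1 - (p i + δ)) := by
              have := mul_le_mul_of_nonneg_left h2 h3
              linarith
          _ = (p i + δ) * (-s + s ^ 2) + 1 := by ring
          _ ≤ _ := Real.add_one_le_exp _
    rw [← Real.exp_sum, ← Finset.sum_mul, Finset.sum_add_distrib, Finset.sum_const, nsmul_eq_mul,
      ← hNd] at hpb
    calc Real.exp (s * T) * ∏ i ∈ J, ((p i + δ) * Real.exp (-s) + (1 - (p i + δ)))
        ≤ Real.exp (s * T) * Real.exp ((∑ i ∈ J, p i + N * δ) * (-s + s ^ 2)) :=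
          mul_le_mul_of_nonneg_left hpb (Real.exp_pos _).le
      _ = Real.exp (s * T + (∑ i ∈ J, p i + N * δ) * (-s + s ^ 2)) := by rw [Real.exp_add]
      _ ≤ Real.exp (-1) := by
          refine Real.exp_le_exp.mpr ?_
          set μ : ℝ := ∑ i ∈ J, p i with hμ
          have hμN : μ + N * δ ≤ N := by nlinarith
          have h4 : s * T ≤ s * (μ + δ * N / 2) := mul_le_mul_of_nonneg_left hT hs0.le
          have h5 : (μ + N * δ) * s ^ 2 ≤ N * s ^ 2 := mul_le_mul_of_nonneg_right hμN (by positivity)
          have h6 : s * (μ + δ * N / 2) + (μ + N * δ) * (-s + s ^ 2)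
              ≤ - (s * δ * N / 2) + N * s ^ 2 := by nlinarith
          have h7 : - (s * δ * N / 2) + N * s ^ 2 = -(δ ^ 2 * N) / 16 := by
            rw [hs]; ring
          linarith
      _ ≤ 1 / 2 := by
          rw [Real.exp_neg, inv_eq_one_div]
          refine one_div_le_one_div_of_le (by norm_num) ?_
          have := Real.add_one_le_exp (1:ℝ)
          linarith
  have hmain : 1 / 2 ≤ ∑ η : ι → Bool, wt p η * (r η * (if T < cnt J η then (1:ℝ) else 0)) := by
    have hsplit : ∑ η : ι → Bool, wt p η * (r η * (if T < cnt J η then (1:ℝ) else 0))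
        + ∑ η : ι → Bool, wt p η * (r η * (if T < cnt J η then (0:ℝ) else 1)) = 1 := by
      rw [← Finset.sum_add_distrib]
      refine Eq.trans ?_ htot
      refine Finset.sum_congr rfl fun η _ => ?_
      split_ifs <;> ring
    linarith
  -- second moment of the density
  have hsec : ∑ η : ι → Bool, wt p η * r η ^ 2 ≤ Real.exp (2 * N * δ ^ 2 / a) := by
    have e1 : ∀ η : ι → Bool, wt p η * r η ^ 2 = wt p η * ∏ i, (g i (η i) * g i (η i)) := by
      intro η
      rw [Finset.prod_mul_distrib, sq]
    simp_rw [e1]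
    rw [wt_mul_sum p (fun i b => g i b * g i b)]
    have e2 : ∏ i, (p i * (g i true * g i true) + (1 - p i) * (g i false * g i false))
        = ∏ i ∈ J, (1 + δ ^ 2 / (p i * (1 - p i))) := by
      rw [← Finset.prod_subset (Finset.subset_univ J)]
      · refine Finset.prod_congr rfl fun i hi => ?_
        have e1 : p i ≠ 0 := by have := hJ0 i hi; linarith
        have e2 : 1 - p i ≠ 0 := by have := hJ1 i hi; linarith
        simp only [hg, if_pos hi, w1]
        simp only [if_true, Bool.false_eq_true, if_false]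
        field_simp
        ring
      · intro i _ hi
        simp only [hg, if_neg hi]
        ring
    rw [e2]
    calc ∏ i ∈ J, (1 + δ ^ 2 / (p i * (1 - p i))) ≤ ∏ i ∈ J, Real.exp (2 * δ ^ 2 / a) := by
          refine Finset.prod_le_prod (fun i hi => ?_) fun i hi => ?_
          · have h3 : 0 < p i := by have := hJ0 i hi; linarith
            have h4 : 0 < 1 - p i := by have := hJ1 i hi; linarith
            positivity
          · have h3 : 0 < p i := by have := hJ0 i hi; linarith
            have h4 : 0 < 1 - p i := by have := hJ1 i hi; linarith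
            have h5 : a / 2 ≤ p i * (1 - p i) := by
              have h6 := hJ0 i hi
              have h7 := hJ1 i hi
              rcases le_total (p i) (1/2) with h | h
              · nlinarith
              · nlinarith
            have h8 : δ ^ 2 / (p i * (1 - p i)) ≤ 2 * δ ^ 2 / a := by
              rw [div_le_div_iff₀ (by positivity) ha0]
              nlinarith [sq_nonneg δ]
            have := Real.add_one_le_exp (2 * δ ^ 2 / a)
            linarith
      _ = Real.exp (2 * N * δ ^ 2 / a) := by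
          rw [Finset.prod_const, ← Real.exp_nat_mul]
          congr 1
          rw [← hNd]
          ring
  -- Cauchy-Schwarz
  have hcs : (∑ η : ι → Bool, wt p η * (r η * (if T < cnt J η then (1:ℝ) else 0))) ^ 2
      ≤ (∑ η : ι → Bool, wt p η * (if T < cnt J η then (1:ℝ) else 0)) * ∑ η : ι → Bool, wt p η * r η ^ 2 := by
    have := Finset.sum_mul_sq_le_sq_mul_sq (Finset.univ : Finset (ι → Bool))
      (fun η => Real.sqrt (wt p η) * (if T < cnt J η then (1:ℝ) else 0))
      (fun η => Real.sqrt (wt p η) * r η)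
    have e1 : ∀ η, Real.sqrt (wt p η) * (if T < cnt J η then (1:ℝ) else 0) * (Real.sqrt (wt p η) * r η)
        = wt p η * (r η * (if T < cnt J η then (1:ℝ) else 0)) := by
      intro η
      have := Real.mul_self_sqrt (wt_nonneg h0 h1 η)
      calc _ = (Real.sqrt (wt p η) * Real.sqrt (wt p η)) * (r η * (if T < cnt J η then (1:ℝ) else 0)) := by
            ring
        _ = _ := by rw [this]
    have e2 : ∀ η, (Real.sqrt (wt p η) * (if T < cnt J η then (1:ℝ) else 0)) ^ 2
        = wt p η * (if T < cnt J η then (1:ℝ) else 0) := by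
      intro η
      rw [mul_pow, Real.sq_sqrt (wt_nonneg h0 h1 η)]
      split_ifs <;> simp
    have e3 : ∀ η, (Real.sqrt (wt p η) * r η) ^ 2 = wt p η * r η ^ 2 := by
      intro η
      rw [mul_pow, Real.sq_sqrt (wt_nonneg h0 h1 η)]
    simp only [e1, e2, e3] at this
    exact this
  set X : ℝ := ∑ η : ι → Bool, wt p η * (if T < cnt J η then (1:ℝ) else 0) with hX
  have hX0 : 0 ≤ X := by
    refine Finset.sum_nonneg fun η _ => mul_nonneg (wt_nonneg h0 h1 η) ?_
    split_ifs <;> norm_num
  have h9 : (1 / 2 : ℝ) ^ 2 ≤ X * Real.exp (2 * N * δ ^ 2 / a) := by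
    calc (1 / 2 : ℝ) ^ 2 ≤ (∑ η : ι → Bool, wt p η * (r η * (if T < cnt J η then (1:ℝ) else 0))) ^ 2 :=
          pow_le_pow_left₀ (by norm_num) hmain 2
      _ ≤ _ := hcs
      _ ≤ _ := mul_le_mul_of_nonneg_left hsec hX0
  rw [Real.exp_neg]
  rw [← div_eq_mul_inv, div_le_iff₀ (Real.exp_pos _)]
  calc (1:ℝ) / 4 = (1 / 2) ^ 2 := by norm_num
    _ ≤ _ := h9

/-- flipping all the coordinates -/
lemma sum_flip (p : ι → ℝ) (F : (ι → Bool) → ℝ) :
    ∑ η : ι → Bool, wt p η * F η = ∑ η : ι → Bool, wt (fun i => 1 - p i) η * F (fun i => !η i) := by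
  let f : (ι → Bool) → (ι → Bool) := fun η i => !η i
  have hf : Function.Involutive f := fun η => by funext i; simp [f]
  have h3 := Equiv.sum_comp (Function.Involutive.toPerm f hf) (fun η : ι → Bool => wt p η * F η)
  rw [← h3]
  refine Finset.sum_congr rfl fun η _ => ?_
  have e1 : (Function.Involutive.toPerm f hf) η = fun i => !η i := rfl
  rw [e1]
  congr 1
  unfold wt
  refine Finset.prod_congr rfl fun i _ => ?_
  cases h : η i <;> simp [w1, h]

lemma cnt_flip (J : Finset ι) (η : ι → Bool) : cnt J (fun i => !η i) = J.card - cnt J η := by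
  unfold cnt
  rw [eq_sub_iff_add_eq, ← Finset.sum_add_distrib, ← nsmul_one, ← Finset.sum_const]
  refine Finset.sum_congr rfl fun i _ => ?_
  cases h : η i <;> simp [h]

lemma tail_down {p : ι → ℝ} (h0 : ∀ i, 0 ≤ p i) (h1 : ∀ i, p i ≤ 1) (J : Finset ι) {a δ : ℝ}
    (ha0 : 0 < a) (hJ0 : ∀ i ∈ J, a ≤ p i) (hJ1 : ∀ i ∈ J, p i ≤ 1 - a) (hδ0 : 0 < δ) (hδ : δ ≤ a)
    (hN : 16 ≤ δ ^ 2 * J.card) {T : ℝ} (hT : ∑ i ∈ J, p i - δ * J.card / 2 ≤ T) :
    1 / 4 * Real.exp (-(2 * J.card * δ ^ 2 / a)) ≤
      ∑ η : ι → Bool, wt p η * (if cnt J η < T then (1:ℝ) else 0) := by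
  rw [sum_flip]
  have h := tail_up (p := fun i => 1 - p i) (fun i => by have := h1 i; linarith)
    (fun i => by have := h0 i; linarith) J ha0 (fun i hi => by have := hJ1 i hi; linarith)
    (fun i hi => by have := hJ0 i hi; linarith) hδ0 hδ hN (T := J.card - T) (by
      rw [Finset.sum_sub_distrib, Finset.sum_const, nsmul_one]
      linarith)
  refine h.trans (le_of_eq ?_)
  refine Finset.sum_congr rfl fun η _ => ?_
  rw [cnt_flip]
  have : (↑J.card - T < cnt J η) ↔ (↑J.card - cnt J η < T) := by
    constructor <;> intro h <;> linarith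
  simp only [this]

/-- anticoncentration -/
lemma tail_two {p : ι → ℝ} (h0 : ∀ i, 0 ≤ p i) (h1 : ∀ i, p i ≤ 1) (J : Finset ι) {a δ : ℝ}
    (ha0 : 0 < a) (hJ0 : ∀ i ∈ J, a ≤ p i) (hJ1 : ∀ i ∈ J, p i ≤ 1 - a) (hδ0 : 0 < δ) (hδ : δ ≤ a)
    (hN : 16 ≤ δ ^ 2 * J.card) (A : ℝ) :
    ∑ η : ι → Bool, wt p η * (if |cnt J η - A| ≤ δ * J.card / 2 then (1:ℝ) else 0)
      ≤ 1 - 1 / 4 * Real.exp (-(2 * J.card * δ ^ 2 / a)) := by
  have key : ∀ Q : (ι → Bool) → Prop, ∀ [∀ η, Decidable (Q η)],
      (∀ η, Q η → ¬ |cnt J η - A| ≤ δ * J.card / 2) →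
      1 / 4 * Real.exp (-(2 * J.card * δ ^ 2 / a)) ≤ ∑ η : ι → Bool, wt p η * (if Q η then (1:ℝ) else 0) →
      ∑ η : ι → Bool, wt p η * (if |cnt J η - A| ≤ δ * J.card / 2 then (1:ℝ) else 0)
        ≤ 1 - 1 / 4 * Real.exp (-(2 * J.card * δ ^ 2 / a)) := by
    intro Q _ hQ hsum
    have : ∑ η : ι → Bool, wt p η * (if |cnt J η - A| ≤ δ * J.card / 2 then (1:ℝ) else 0)
        + ∑ η : ι → Bool, wt p η * (if Q η then (1:ℝ) else 0) ≤ 1 := by
      rw [← Finset.sum_add_distrib]
      refine le_of_le_of_eq ?_ (wt_sum p)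
      refine Finset.sum_le_sum fun η _ => ?_
      have hw := wt_nonneg h0 h1 η
      by_cases hq : Q η
      · rw [if_pos hq, if_neg (hQ η hq)]
        linarith
      · rw [if_neg hq]
        split_ifs <;> linarith
    linarith
  rcases le_total A (∑ i ∈ J, p i) with h | h
  · refine key (fun η => A + δ * J.card / 2 < cnt J η) (fun η hη habs => ?_)
      (tail_up h0 h1 J ha0 hJ0 hJ1 hδ0 hδ hN (by linarith))
    have := (abs_le.mp habs).2
    linarith
  · refine key (fun η => cnt J η < A - δ * J.card / 2) (fun η hη habs => ?_)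
      (tail_down h0 h1 J ha0 hJ0 hJ1 hδ0 hδ hN (by linarith))
    have := (abs_le.mp habs).1
    linarith

/-- Chernoff bound: coordinates outside of `M` are deterministic -/
lemma chernoff {p : ι → ℝ} (h0 : ∀ i, 0 ≤ p i) (h1 : ∀ i, p i ≤ 1) (M : Finset ι)
    (hM : ∀ i ∉ M, p i = 0 ∨ p i = 1) {s : ℝ} (hs : |s| ≤ 1) (t : ℝ) :
    ∑ η : ι → Bool, wt p η * (if s * (cnt univ η - ∑ i, p i) < t then (0:ℝ) else 1)
      ≤ Real.exp (s ^ 2 * M.card - t) := by
  have hb : ∑ η : ι → Bool, wt p η * (if s * (cnt univ η - ∑ i, p i) < t then (0:ℝ) else 1)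
      ≤ ∑ η : ι → Bool, Real.exp (-t) * (wt p η * ∏ i, Real.exp (s * ((if η i then 1 else 0) - p i))) := by
    refine Finset.sum_le_sum fun η _ => ?_
    rw [← Real.exp_sum, ← Finset.mul_sum, Finset.sum_sub_distrib]
    have e2 : (if s * (cnt univ η - ∑ i, p i) < t then (0:ℝ) else 1)
        ≤ Real.exp (-t) * Real.exp (s * (∑ i, (if η i then (1:ℝ) else 0) - ∑ i, p i)) := by
      rw [← Real.exp_add]
      split_ifs with h
      · exact (Real.exp_pos _).le
      · push Not at h
        refine Real.one_le_exp ?_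
        unfold cnt at h
        linarith
    calc _ ≤ wt p η * (Real.exp (-t) * Real.exp (s * (∑ i, (if η i then (1:ℝ) else 0) - ∑ i, p i))) :=
          mul_le_mul_of_nonneg_left e2 (wt_nonneg h0 h1 η)
      _ = _ := by ring
  refine hb.trans ?_
  rw [← Finset.mul_sum, wt_mul_sum p (fun i b => Real.exp (s * ((if b then 1 else 0) - p i)))]
  have h2 : ∏ i, (p i * Real.exp (s * ((if (true : Bool) then 1 else 0) - p i))
        + (1 - p i) * Real.exp (s * ((if (false : Bool) then 1 else 0) - p i)))
      ≤ ∏ i, (if i ∈ M then Real.exp (s ^ 2) else 1) := by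
    refine Finset.prod_le_prod (fun i _ => ?_) fun i _ => ?_
    · have := h0 i
      have := h1 i
      have h3 : 0 ≤ 1 - p i := by linarith
      positivity
    · by_cases hi : i ∈ M
      · rw [if_pos hi]
        have h3 := h0 i
        have h4 := h1 i
        have h5 : 0 ≤ 1 - p i := by linarith
        have e1 : Real.exp (s * (1 - p i)) ≤ 1 + s * (1 - p i) + (s * (1 - p i)) ^ 2 := by
          refine exp_quad ?_
          rw [abs_mul, abs_of_nonneg h5]
          nlinarith [abs_nonneg s]
        have e2 : Real.exp (s * (0 - p i)) ≤ 1 + s * (0 - p i) + (s * (0 - p i)) ^ 2 := by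
          refine exp_quad ?_
          rw [abs_mul, zero_sub, abs_neg, abs_of_nonneg h3]
          nlinarith [abs_nonneg s]
        simp only [if_true, Bool.false_eq_true, if_false]
        calc p i * Real.exp (s * (1 - p i)) + (1 - p i) * Real.exp (s * (0 - p i))
            ≤ p i * (1 + s * (1 - p i) + (s * (1 - p i)) ^ 2)
              + (1 - p i) * (1 + s * (0 - p i) + (s * (0 - p i)) ^ 2) := by
              have := mul_le_mul_of_nonneg_left e1 h3
              have := mul_le_mul_of_nonneg_left e2 h5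
              linarith
          _ = 1 + s ^ 2 * (p i * (1 - p i)) := by ring
          _ ≤ 1 + s ^ 2 * 1 := by
              have : p i * (1 - p i) ≤ 1 := by nlinarith
              have := mul_le_mul_of_nonneg_left this (sq_nonneg s)
              linarith
          _ ≤ Real.exp (s ^ 2) := by
              have := Real.add_one_le_exp (s ^ 2)
              linarith
      · rw [if_neg hi]
        rcases hM i hi with h | h
        · rw [h]; simp
        · rw [h]; simp
  calc Real.exp (-t) * ∏ i, (p i * Real.exp (s * ((if (true : Bool) then 1 else 0) - p i))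
        + (1 - p i) * Real.exp (s * ((if (false : Bool) then 1 else 0) - p i)))
      ≤ Real.exp (-t) * ∏ i, (if i ∈ M then Real.exp (s ^ 2) else 1) :=
        mul_le_mul_of_nonneg_left h2 (Real.exp_pos _).le
    _ = Real.exp (s ^ 2 * M.card - t) := by
        rw [Finset.prod_ite_mem, Finset.univ_inter, Finset.prod_const, ← Real.exp_nat_mul,
          ← Real.exp_add]
        congr 1
        ring

end Pool.Agent.U180.SN
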