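import Pool.Agent.U180.SN.Upper

/-! # Random points in small cubes: all corner boxes at the same time -/

open Finset MeasureTheory Filter Topology

set_option linter.unusedSectionVars false

namespace Pool.Agent.U180.SN

lemma prod_diff {ι : Type*} [DecidableEq ι] (s : Finset ι) (a b : ι → ℝ) (h0 : ∀ i, 0 ≤ a i)
    (hab : ∀ i, a i ≤ b i) (h1 : ∀ i, b i ≤ 1) :
    ∏ i ∈ s, b i - ∏ i ∈ s, a i ≤ ∑ i ∈ s, (b i - a i) := by
  induction s using Finset.induction_on with
  | empty => simp
  | insert i s hi ih =>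
    rw [Finset.prod_insert hi, Finset.prod_insert hi, Finset.sum_insert hi]
    have h2 : 0 ≤ ∏ i ∈ s, a i := Finset.prod_nonneg fun i _ => h0 i
    have h3 : ∏ i ∈ s, a i ≤ 1 := Finset.prod_le_one (fun i _ => h0 i)
      fun i _ => (hab i).trans (h1 i)
    have h4 : ∏ i ∈ s, a i ≤ ∏ i ∈ s, b i := Finset.prod_le_prod (fun i _ => h0 i) fun i _ => hab i
    have h5 := h1 i
    have h6 := hab i
    have h7 : b i * (∏ i ∈ s, b i - ∏ i ∈ s, a i) ≤ 1 * (∏ i ∈ s, b i - ∏ i ∈ s, a i) :=
      mul_le_mul_of_nonneg_right h5 (by linarith)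
    have h8 : (b i - a i) * ∏ i ∈ s, a i ≤ (b i - a i) * 1 :=
      mul_le_mul_of_nonneg_left h3 (by linarith)
    calc b i * ∏ i ∈ s, b i - a i * ∏ i ∈ s, a i
        = b i * (∏ i ∈ s, b i - ∏ i ∈ s, a i) + (b i - a i) * ∏ i ∈ s, a i := by ring
      _ ≤ _ := by linarith

/-- number of the random points below the corner `x` -/
noncomputable def cornerCount {m d : ℕ} (n : ℕ) (p : Fin m → Fin d → ℝ) (u : Fin m → Fin d → ℝ)
    (x : Fin d → ℝ) : ℝ :=
  (((univ : Finset (Fin m)).filter fun i => ∀ j, (cell n p i j : ℝ) / n + 1 / n * u i j ≤ x j).card : ℝ)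

/-- expected number -/
noncomputable def cornerMean {m d : ℕ} (n : ℕ) (p : Fin m → Fin d → ℝ) (x : Fin d → ℝ) : ℝ :=
  ∑ i, ∏ j, max 0 (min 1 ((x j - (cell n p i j : ℝ) / n) / (1 / n)))

lemma one_corner {m d n : ℕ} (hn : 1 ≤ n) (p : Fin m → Fin d → ℝ) (hp0 : ∀ i j, 0 ≤ p i j)
    {D B : ℝ} (hD : HasDisc p D) (hDm : 0 ≤ m * D) (hB : d * (m / n + 4 * (m * D)) ≤ B)
    (x : Fin d → ℝ) (hx0 : ∀ j, 0 ≤ x j) (hx1 : ∀ j, x j ≤ 1) {σ : ℝ} (hσ : |σ| ≤ 1) (t : ℝ) :
    volume {u : Fin m → Fin d → ℝ | (∀ i, u i ∈ Set.Icc (0 : Fin d → ℝ) 1) ∧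
      t ≤ σ * (cornerCount n p u x - cornerMean n p x)} ≤ ENNReal.ofReal (Real.exp (σ ^ 2 * B - t)) := by
  classical
  have hn0 : (0:ℝ) < n := by exact_mod_cast hn
  obtain ⟨M, hM, hMc⟩ := cut_bound hn p hp0 hD hDm x hx0 hx1
  set q : Fin m → ℝ := fun i => ∏ j, max 0 (min 1 ((x j - (cell n p i j : ℝ) / n) / (1 / n))) with hq
  have hq0 : ∀ i, 0 ≤ q i := fun i => prod_clamp_nonneg _
  have hq1 : ∀ i, q i ≤ 1 := fun i => prod_clamp_le_one _
  have hch := chernoff hq0 hq1 M hM hσ t
  set A : Fin m → Set (Fin d → ℝ) := fun i =>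
    {u : Fin d → ℝ | u ∈ Set.Icc (0 : Fin d → ℝ) 1 ∧ ∀ j, (cell n p i j : ℝ) / n + 1 / n * u j ≤ x j} with hA
  have h := vol_pattern_le A (fun i => meas_corner _ _ _) (fun i u hu => hu.1) q hq0 hq1
    (fun i => vol_corner (fun j => (cell n p i j : ℝ) / n) x (by positivity))
    ((univ : Finset (Fin m → Bool)).filter fun ω => ¬ σ * (cnt univ ω - ∑ i, q i) < t)
    {u : Fin m → Fin d → ℝ | (∀ i, u i ∈ Set.Icc (0 : Fin d → ℝ) 1) ∧
      t ≤ σ * (cornerCount n p u x - cornerMean n p x)} (by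
      intro u hu
      refine ⟨hu.1, fun i => decide (u i ∈ A i), ?_, fun i => by simp⟩
      rw [Finset.mem_filter]
      refine ⟨Finset.mem_univ _, ?_⟩
      rw [not_lt]
      have e1 : cnt univ (fun i => decide (u i ∈ A i)) = cornerCount n p u x := by
        unfold cnt cornerCount
        rw [Finset.card_filter]
        push_cast
        refine Finset.sum_congr rfl fun i _ => ?_
        have : u i ∈ A i ↔ ∀ j, (cell n p i j : ℝ) / n + 1 / n * u i j ≤ x j :=
          ⟨fun h => h.2, fun h => ⟨hu.1 i, h⟩⟩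
        simp [this]
      rw [e1]
      exact hu.2)
  refine h.trans (ENNReal.ofReal_le_ofReal ?_)
  calc ∑ ω ∈ (univ : Finset (Fin m → Bool)).filter (fun ω => ¬ σ * (cnt univ ω - ∑ i, q i) < t), wt q ω
      = ∑ ω : Fin m → Bool, wt q ω * (if σ * (cnt univ ω - ∑ i, q i) < t then (0:ℝ) else 1) := by
        rw [Finset.sum_filter]
        refine Finset.sum_congr rfl fun ω _ => ?_
        by_cases h' : σ * (cnt univ ω - ∑ i, q i) < t
        · rw [if_pos h', if_neg (not_not.mpr h'), mul_zero]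
        · rw [if_neg h', if_pos h', mul_one]
    _ ≤ Real.exp (σ ^ 2 * M.card - t) := hch
    _ ≤ Real.exp (σ ^ 2 * B - t) := by
        refine Real.exp_le_exp.mpr ?_
        have := mul_le_mul_of_nonneg_left (hMc.trans hB) (sq_nonneg σ)
        linarith

/-- all corners -/
theorem upper_core {m d n : ℕ} (hm : 1 ≤ m) (hn : 1 ≤ n) (p : Fin m → Fin d → ℝ)
    (hp0 : ∀ i j, 0 ≤ p i j)
    {D B : ℝ} (hD : HasDisc p D) (hDm : 0 ≤ m * D) (hB : d * (m / n + 4 * (m * D)) ≤ B)
    {s τ : ℝ} (hs0 : 0 < s) (hs1 : s ≤ 1) :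
    volume {u : Fin m → Fin d → ℝ | (∀ i, u i ∈ Set.Icc (0 : Fin d → ℝ) 1) ∧
      ∃ x : Fin d → ℝ, (∀ j, 0 ≤ x j) ∧ (∀ j, x j ≤ 1) ∧
        2 * (m * D) + τ + d < |cornerCount n p u x - m * ∏ j, x j|}
      ≤ ENNReal.ofReal (2 * ((m:ℝ) + 1) ^ d * Real.exp (s ^ 2 * B - s * τ)) := by
  classical
  have hm0 : (0:ℝ) < m := by exact_mod_cast hm
  set G : Finset (Fin d → ℕ) := Fintype.piFinset fun _ : Fin d => Finset.range (m + 1) with hG
  set Y : (Fin d → ℕ) → Fin d → ℝ := fun g j => (g j : ℝ) / m with hY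
  have hY0 : ∀ g j, 0 ≤ Y g j := fun g j => by simp only [hY]; positivity
  have hY1 : ∀ g ∈ G, ∀ j, Y g j ≤ 1 := by
    intro g hg j
    have : g j < m + 1 := by
      have := (Fintype.mem_piFinset.mp hg) j
      exact Finset.mem_range.mp this
    simp only [hY]
    rw [div_le_one hm0]
    exact_mod_cast (by omega : g j ≤ m)
  have hsub : {u : Fin m → Fin d → ℝ | (∀ i, u i ∈ Set.Icc (0 : Fin d → ℝ) 1) ∧
      ∃ x : Fin d → ℝ, (∀ j, 0 ≤ x j) ∧ (∀ j, x j ≤ 1) ∧
        2 * (m * D) + τ + d < |cornerCount n p u x - m * ∏ j, x j|}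
      ⊆ ⋃ g ∈ G, ({u : Fin m → Fin d → ℝ | (∀ i, u i ∈ Set.Icc (0 : Fin d → ℝ) 1) ∧
          s * τ ≤ s * (cornerCount n p u (Y g) - cornerMean n p (Y g))} ∪
        {u : Fin m → Fin d → ℝ | (∀ i, u i ∈ Set.Icc (0 : Fin d → ℝ) 1) ∧
          s * τ ≤ (-s) * (cornerCount n p u (Y g) - cornerMean n p (Y g))}) := by
    rintro u ⟨huc, x, hx0, hx1, hx⟩
    rw [Set.mem_iUnion₂]
    rcases lt_abs.mp hx with h1 | h1
    · -- too many points: upper neighbour
      refine ⟨fun j => ⌈m * x j⌉₊, ?_, Or.inl ⟨huc, ?_⟩⟩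
      · rw [hG, Fintype.mem_piFinset]
        intro j
        rw [Finset.mem_range]
        have : ⌈m * x j⌉₊ ≤ m := by
          rw [Nat.ceil_le]
          have := hx1 j
          nlinarith
        omega
      · set g : Fin d → ℕ := fun j => ⌈m * x j⌉₊ with hg
        have hgG : g ∈ G := by
          rw [hG, Fintype.mem_piFinset]
          intro j
          rw [Finset.mem_range]
          have : ⌈m * x j⌉₊ ≤ m := by
            rw [Nat.ceil_le]
            have := hx1 j
            nlinarith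
          exact Nat.lt_succ_of_le this
        have hxy : ∀ j, x j ≤ Y g j := by
          intro j
          simp only [hY]
          rw [le_div_iff₀ hm0]
          have := Nat.le_ceil (m * x j)
          linarith
        have hyx : ∀ j, Y g j - x j ≤ 1 / m := by
          intro j
          simp only [hY]
          have := (Nat.ceil_lt_add_one (show 0 ≤ m * x j from mul_nonneg hm0.le (hx0 j))).le
          have h9 : ((g j : ℕ) : ℝ) ≤ m * x j + 1 := this
          have h10 : ((g j : ℕ) : ℝ) / m ≤ (m * x j + 1) / m := div_le_div_of_nonneg_right h9 hm0.le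
          have h11 : (m * x j + 1) / m = x j + 1 / m := by field_simp
          linarith
        have h2 : cornerCount n p u x ≤ cornerCount n p u (Y g) := by
          unfold cornerCount
          refine Nat.cast_le.mpr (Finset.card_le_card fun i hi => ?_)
          rw [Finset.mem_filter] at hi ⊢
          exact ⟨hi.1, fun j => (hi.2 j).trans (hxy j)⟩
        have h3 := prod_diff univ x (Y g) hx0 hxy (hY1 g hgG)
        have h4 : ∑ j, (Y g j - x j) ≤ d * (1 / m) := by
          calc ∑ j, (Y g j - x j) ≤ ∑ _j : Fin d, (1:ℝ) / m := Finset.sum_le_sum fun j _ => hyx j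
            _ = d * (1 / m) := by rw [Finset.sum_const, Finset.card_univ, Fintype.card_fin, nsmul_eq_mul]
        have h5 : m * ∏ j, Y g j ≤ m * ∏ j, x j + d := by
          have : m * (∏ j, Y g j - ∏ j, x j) ≤ m * (d * (1 / m)) :=
            mul_le_mul_of_nonneg_left (h3.trans h4) hm0.le
          have e : (m:ℝ) * (d * (1 / m)) = d := by field_simp
          rw [e] at this
          linarith
        have h6 := (abs_le.mp (mean_bound hn p hp0 hD hDm (Y g) (hY0 g) (hY1 g hgG))).2
        have h7 : cornerMean n p (Y g) = ∑ i, ∏ j, max 0 (min 1 ((Y g j - (cell n p i j : ℝ) / n) / (1 / n))) := rfl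
        rw [← h7] at h6
        exact mul_le_mul_of_nonneg_left (by linarith) hs0.le
    · -- too few points: lower neighbour
      refine ⟨fun j => ⌊m * x j⌋₊, ?_, Or.inr ⟨huc, ?_⟩⟩
      · rw [hG, Fintype.mem_piFinset]
        intro j
        rw [Finset.mem_range]
        have : ⌊m * x j⌋₊ ≤ m := by
          refine Nat.floor_le_of_le ?_
          have := hx1 j
          nlinarith
        omega
      · set g : Fin d → ℕ := fun j => ⌊m * x j⌋₊ with hg
        have hgG : g ∈ G := by
          rw [hG, Fintype.mem_piFinset]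
          intro j
          rw [Finset.mem_range]
          have : ⌊m * x j⌋₊ ≤ m := by
            refine Nat.floor_le_of_le ?_
            have := hx1 j
            nlinarith
          exact Nat.lt_succ_of_le this
        have hxy : ∀ j, Y g j ≤ x j := by
          intro j
          simp only [hY]
          rw [div_le_iff₀ hm0]
          have := Nat.floor_le (show 0 ≤ m * x j from mul_nonneg hm0.le (hx0 j))
          simp only [hg]
          linarith
        have hyx : ∀ j, x j - Y g j ≤ 1 / m := by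
          intro j
          simp only [hY]
          rw [sub_le_iff_le_add, ← add_div, le_div_iff₀ hm0]
          have := (Nat.lt_floor_add_one (m * x j)).le
          simp only [hg]
          linarith
        have h2 : cornerCount n p u (Y g) ≤ cornerCount n p u x := by
          unfold cornerCount
          refine Nat.cast_le.mpr (Finset.card_le_card fun i hi => ?_)
          rw [Finset.mem_filter] at hi ⊢
          exact ⟨hi.1, fun j => (hi.2 j).trans (hxy j)⟩
        have h3 := prod_diff univ (Y g) x (hY0 g) hxy hx1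
        have h4 : ∑ j, (x j - Y g j) ≤ d * (1 / m) := by
          calc ∑ j, (x j - Y g j) ≤ ∑ _j : Fin d, (1:ℝ) / m := Finset.sum_le_sum fun j _ => hyx j
            _ = d * (1 / m) := by rw [Finset.sum_const, Finset.card_univ, Fintype.card_fin, nsmul_eq_mul]
        have h5 : m * ∏ j, x j - d ≤ m * ∏ j, Y g j := by
          have : m * (∏ j, x j - ∏ j, Y g j) ≤ m * (d * (1 / m)) :=
            mul_le_mul_of_nonneg_left (h3.trans h4) hm0.le
          have e : (m:ℝ) * (d * (1 / m)) = d := by field_simp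
          rw [e] at this
          linarith
        have h6 := (abs_le.mp (mean_bound hn p hp0 hD hDm (Y g) (hY0 g) (hY1 g hgG))).1
        have h7 : cornerMean n p (Y g) = ∑ i, ∏ j, max 0 (min 1 ((Y g j - (cell n p i j : ℝ) / n) / (1 / n))) := rfl
        rw [← h7] at h6
        rw [neg_mul, ← mul_neg]
        exact mul_le_mul_of_nonneg_left (by linarith) hs0.le
  refine (measure_mono hsub).trans ((measure_biUnion_finset_le _ _).trans ?_)
  have hone : ∀ g ∈ G, volume ({u : Fin m → Fin d → ℝ | (∀ i, u i ∈ Set.Icc (0 : Fin d → ℝ) 1) ∧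
          s * τ ≤ s * (cornerCount n p u (Y g) - cornerMean n p (Y g))} ∪
        {u : Fin m → Fin d → ℝ | (∀ i, u i ∈ Set.Icc (0 : Fin d → ℝ) 1) ∧
          s * τ ≤ (-s) * (cornerCount n p u (Y g) - cornerMean n p (Y g))})
      ≤ ENNReal.ofReal (2 * Real.exp (s ^ 2 * B - s * τ)) := by
    intro g hg
    refine (measure_union_le _ _).trans ?_
    have b1 := one_corner hn p hp0 hD hDm hB (Y g) (hY0 g) (hY1 g hg)
      (σ := s) (by rw [abs_of_pos hs0]; exact hs1) (s * τ)
    have b2 := one_corner hn p hp0 hD hDm hB (Y g) (hY0 g) (hY1 g hg)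
      (σ := -s) (by rw [abs_neg, abs_of_pos hs0]; exact hs1) (s * τ)
    rw [neg_sq] at b2
    have e : 2 * Real.exp (s ^ 2 * B - s * τ) = Real.exp (s ^ 2 * B - s * τ) + Real.exp (s ^ 2 * B - s * τ) := by
      ring
    rw [e, ENNReal.ofReal_add (Real.exp_pos _).le (Real.exp_pos _).le]
    exact add_le_add b1 b2
  calc ∑ g ∈ G, volume _ ≤ ∑ _g ∈ G, ENNReal.ofReal (2 * Real.exp (s ^ 2 * B - s * τ)) :=
        Finset.sum_le_sum hone
    _ = ENNReal.ofReal (2 * ((m:ℝ) + 1) ^ d * Real.exp (s ^ 2 * B - s * τ)) := by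
        rw [Finset.sum_const, nsmul_eq_mul, hG, Fintype.card_piFinset]
        simp only [Finset.card_range, Finset.prod_const, Finset.card_univ, Fintype.card_fin]
        rw [← ENNReal.ofReal_natCast, ← ENNReal.ofReal_mul (Nat.cast_nonneg _)]
        congr 1
        push_cast
        ring

end Pool.Agent.U180.SN
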