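import Pool.Agent.U180.SN.Lower

/-! # Random points in small cubes: the upper bound -/

open Finset MeasureTheory Filter Topology

set_option linter.unusedSectionVars false

namespace Pool.Agent.U180.SN

/-- index of the grid cube which contains a point -/
noncomputable def cell {m d : ℕ} (n : ℕ) (p : Fin m → Fin d → ℝ) (i : Fin m) (j : Fin d) : ℕ :=
  min ⌊n * p i j⌋₊ (n - 1)

/-- number of points whose cube is below the vertex `l` -/
noncomputable def below {m d : ℕ} (n : ℕ) (p : Fin m → Fin d → ℝ) (l : Fin d → ℕ) : ℝ :=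
  (((univ : Finset (Fin m)).filter fun i => ∀ j, cell n p i j < l j).card : ℝ)

/-- the points have discrepancy at most `m D` -/
def HasDisc {m d : ℕ} (p : Fin m → Fin d → ℝ) (D : ℝ) : Prop :=
  ∀ x : Fin d → ℝ, (∀ j, 0 ≤ x j) → (∀ j, x j < 1) →
    |(((univ : Finset (Fin m)).filter fun i => ∀ j, p i j ≤ x j).card : ℝ) - m * ∏ j, x j| ≤ m * D

lemma below_bound {m d n : ℕ} (hn : 1 ≤ n) (p : Fin m → Fin d → ℝ) (hp0 : ∀ i j, 0 ≤ p i j)
    {D : ℝ} (hD : HasDisc p D) (hDm : 0 ≤ m * D) (l : Fin d → ℕ) (hl : ∀ j, l j ≤ n) :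
    |below n p l - m * ∏ j, ((l j : ℝ) / n)| ≤ 2 * (m * D) := by
  classical
  have hn0 : (0:ℝ) < n := by exact_mod_cast hn
  by_cases hz : ∃ j, l j = 0
  · obtain ⟨j, hj⟩ := hz
    have h1 : ∏ j, ((l j : ℝ) / n) = 0 := Finset.prod_eq_zero (Finset.mem_univ j) (by rw [hj]; simp)
    have h2 : below n p l = 0 := by
      unfold below
      rw [Nat.cast_eq_zero, Finset.card_eq_zero, Finset.filter_eq_empty_iff]
      intro i _ h
      have := h j
      rw [hj] at this
      exact Nat.not_lt_zero _ this
    rw [h1, h2]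
    simp only [mul_zero, sub_zero, abs_zero]
    linarith
  push Not at hz
  have hl1 : ∀ j, 1 ≤ l j := fun j => Nat.one_le_iff_ne_zero.mpr (hz j)
  have hll : ∀ j, (1:ℝ) / n ≤ (l j : ℝ) / n := fun j => by
    have : (1:ℝ) ≤ l j := by exact_mod_cast hl1 j
    exact div_le_div_of_nonneg_right this hn0.le
  have hlu : ∀ j, (l j : ℝ) / n ≤ 1 := fun j => by
    rw [div_le_one hn0]
    exact_mod_cast hl j
  -- eventually in ε
  have hev1 : ∀ᶠ ε in 𝓝[>] (0:ℝ), ∀ i, ∀ j, p i j < (l j : ℝ) / n → p i j ≤ (l j : ℝ) / n - ε := by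
    rw [Filter.eventually_all]
    intro i
    rw [Filter.eventually_all]
    intro j
    by_cases h : p i j < (l j : ℝ) / n
    · have h1 : ∀ᶠ ε in 𝓝[>] (0:ℝ), ε < (l j : ℝ) / n - p i j :=
        eventually_nhdsWithin_of_eventually_nhds (eventually_lt_nhds (by linarith))
      filter_upwards [h1] with ε hε _
      linarith
    · exact Filter.Eventually.of_forall fun ε h' => absurd h' h
  have hev2 : ∀ᶠ ε in 𝓝[>] (0:ℝ), ε < (1:ℝ) / n :=
    eventually_nhdsWithin_of_eventually_nhds (eventually_lt_nhds (by positivity))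
  have hev3 : ∀ᶠ ε in 𝓝[>] (0:ℝ), 0 < ε := eventually_mem_nhdsWithin
  have hle1n : (1:ℝ) / n ≤ 1 := by
    rw [div_le_one hn0]
    exact_mod_cast hn
  have hmain : ∀ᶠ ε in 𝓝[>] (0:ℝ),
      m * ∏ j, ((l j : ℝ) / n - ε) - m * D ≤ below n p l ∧
      below n p l ≤ m * ∏ j, ((l j : ℝ) / n - ε) + m * D + (m - m * ∏ _j : Fin d, (1 - ε) + m * D) := by
    filter_upwards [hev1, hev2, hev3] with ε h1 h2 h3
    have hx0 : ∀ j, 0 ≤ (l j : ℝ) / n - ε := fun j => by have := hll j; linarith
    have hx1 : ∀ j, (l j : ℝ) / n - ε < 1 := fun j => by have := hlu j; linarith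
    have e1 := abs_le.mp (hD (fun j => (l j : ℝ) / n - ε) hx0 hx1)
    have e2 := abs_le.mp (hD (fun _ => 1 - ε) (fun _ => by linarith) (fun _ => by linarith))
    have hsub1 : ((univ : Finset (Fin m)).filter fun i => ∀ j, p i j ≤ (l j : ℝ) / n - ε)
        ⊆ (univ : Finset (Fin m)).filter fun i => ∀ j, cell n p i j < l j := by
      intro i hi
      rw [Finset.mem_filter] at hi ⊢
      refine ⟨hi.1, fun j => ?_⟩
      refine lt_of_le_of_lt (min_le_left _ _) ?_
      rw [Nat.floor_lt (mul_nonneg hn0.le (hp0 i j))]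
      have := hi.2 j
      have h4 : p i j < (l j : ℝ) / n := by linarith
      rw [lt_div_iff₀ hn0] at h4
      linarith
    have hsub2 : ((univ : Finset (Fin m)).filter fun i => ∀ j, cell n p i j < l j)
        ⊆ ((univ : Finset (Fin m)).filter fun i => ∀ j, p i j ≤ (l j : ℝ) / n - ε) ∪
          ((univ : Finset (Fin m)).filter fun i => ¬ ∀ j, p i j ≤ 1 - ε) := by
      intro i hi
      rw [Finset.mem_union, Finset.mem_filter, Finset.mem_filter]
      rw [Finset.mem_filter] at hi
      by_cases hc : ∀ j, p i j ≤ 1 - ε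
      · left
        refine ⟨Finset.mem_univ i, fun j => ?_⟩
        rcases (hl j).eq_or_lt with h4 | h4
        · rw [h4, div_self hn0.ne']
          exact hc j
        · refine h1 i j ?_
          have h5 := hi.2 j
          have h6 : ⌊n * p i j⌋₊ < l j := by
            unfold cell at h5
            rcases min_lt_iff.mp h5 with h7 | h7
            · exact h7
            · omega
          rw [Nat.floor_lt (mul_nonneg hn0.le (hp0 i j))] at h6
          rw [lt_div_iff₀ hn0]
          linarith
      · exact Or.inr ⟨Finset.mem_univ i, hc⟩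
    have hc1 : (((univ : Finset (Fin m)).filter fun i => ∀ j, p i j ≤ (l j : ℝ) / n - ε).card : ℝ)
        ≤ below n p l := by
      unfold below
      exact_mod_cast Finset.card_le_card hsub1
    have hc2 : below n p l ≤
        (((univ : Finset (Fin m)).filter fun i => ∀ j, p i j ≤ (l j : ℝ) / n - ε).card : ℝ)
        + (((univ : Finset (Fin m)).filter fun i => ¬ ∀ j, p i j ≤ 1 - ε).card : ℝ) := by
      unfold below
      exact_mod_cast (Finset.card_le_card hsub2).trans (Finset.card_union_le _ _)
    have hc3 : (((univ : Finset (Fin m)).filter fun i => ∀ j, p i j ≤ 1 - ε).card : ℝ)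
        + (((univ : Finset (Fin m)).filter fun i => ¬ ∀ j, p i j ≤ 1 - ε).card : ℝ) = m := by
      have := Finset.card_filter_add_card_filter_not (s := (univ : Finset (Fin m)))
        (fun i => ∀ j, p i j ≤ 1 - ε)
      rw [Finset.card_univ, Fintype.card_fin] at this
      exact_mod_cast this
    constructor
    · linarith [e1.1]
    · linarith [e1.2, e2.1]
  have hcont1 : Tendsto (fun ε : ℝ => m * ∏ j, ((l j : ℝ) / n - ε) - m * D) (𝓝[>] 0)
      (𝓝 (m * ∏ j, ((l j : ℝ) / n - 0) - m * D)) := by
    refine Tendsto.mono_left (Continuous.tendsto ?_ 0) nhdsWithin_le_nhds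
    fun_prop
  have hcont2 : Tendsto (fun ε : ℝ => m * ∏ j, ((l j : ℝ) / n - ε) + m * D
        + (m - m * ∏ _j : Fin d, (1 - ε) + m * D)) (𝓝[>] 0)
      (𝓝 (m * ∏ j, ((l j : ℝ) / n - 0) + m * D + (m - m * ∏ _j : Fin d, (1 - (0:ℝ)) + m * D))) := by
    refine Tendsto.mono_left (Continuous.tendsto ?_ 0) nhdsWithin_le_nhds
    fun_prop
  have r1 := le_of_tendsto hcont1 (hmain.mono fun ε h => h.1)
  have r2 := ge_of_tendsto hcont2 (hmain.mono fun ε h => h.2)
  simp only [sub_zero, Finset.prod_const_one, mul_one] at r1 r2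
  rw [abs_le]
  constructor <;> linarith

/-- every point of `[0,1]` lies in a closed grid cell -/
lemma exists_cell {n : ℕ} (hn : 1 ≤ n) {x : ℝ} (h0 : 0 ≤ x) (h1 : x ≤ 1) :
    ∃ l : ℕ, ∃ f : ℝ, l < n ∧ 0 ≤ f ∧ f ≤ 1 ∧ n * x = l + f := by
  have hn0 : (0:ℝ) < n := by exact_mod_cast hn
  rcases h1.eq_or_lt with h | h
  · refine ⟨n - 1, 1, by omega, zero_le_one, le_rfl, ?_⟩
    rw [h, Nat.cast_sub hn]
    ring
  · refine ⟨⌊n * x⌋₊, n * x - ⌊n * x⌋₊, ?_, ?_, ?_, by ring⟩
    · rw [Nat.floor_lt (by positivity)]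
      nlinarith
    · have := Nat.floor_le (show 0 ≤ n * x by positivity)
      linarith
    · have := Nat.lt_floor_add_one (n * x)
      linarith

/-- one factor -/
lemma clamp_interp {c l : ℕ} {f : ℝ} (h0 : 0 ≤ f) (h1 : f ≤ 1) :
    max 0 (min 1 ((l:ℝ) + f - c)) = f * (if c < l + 1 then (1:ℝ) else 0)
      + (1 - f) * (if c < l then (1:ℝ) else 0) := by
  rcases lt_trichotomy c l with h | h | h
  · rw [if_pos (by omega), if_pos h]
    have : (c:ℝ) + 1 ≤ l := by exact_mod_cast h
    rw [min_eq_left (by linarith), max_eq_right zero_le_one]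
    ring
  · rw [if_pos (by omega), if_neg (by omega), h]
    have : (l:ℝ) + f - l = f := by ring
    rw [this, min_eq_right h1, max_eq_right h0]
    ring
  · rw [if_neg (by omega), if_neg (by omega)]
    have : (l:ℝ) + 1 ≤ c := by exact_mod_cast h
    rw [max_eq_left ((min_le_right _ _).trans (by linarith))]
    ring

/-- the expected number of points below a corner -/
lemma mean_bound {m d n : ℕ} (hn : 1 ≤ n) (p : Fin m → Fin d → ℝ) (hp0 : ∀ i j, 0 ≤ p i j)
    {D : ℝ} (hD : HasDisc p D) (hDm : 0 ≤ m * D) (x : Fin d → ℝ) (hx0 : ∀ j, 0 ≤ x j)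
    (hx1 : ∀ j, x j ≤ 1) :
    |∑ i, ∏ j, max 0 (min 1 ((x j - (cell n p i j : ℝ) / n) / (1 / n))) - m * ∏ j, x j|
      ≤ 2 * (m * D) := by
  classical
  have hn0 : (0:ℝ) < n := by exact_mod_cast hn
  choose l f hl hf0 hf1 hx using fun j => exists_cell hn (hx0 j) (hx1 j)
  have e1 : ∀ i j, max 0 (min 1 ((x j - (cell n p i j : ℝ) / n) / (1 / n)))
      = f j * (if cell n p i j < l j + 1 then (1:ℝ) else 0)
      + (1 - f j) * (if cell n p i j < l j then (1:ℝ) else 0) := by
    intro i j
    rw [← clamp_interp (hf0 j) (hf1 j)]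
    congr 2
    rw [← hx j]
    field_simp
  have e2 : ∀ j, x j = f j * ((l j + 1 : ℕ) / n) + (1 - f j) * (l j / n) := by
    intro j
    have h2 := hx j
    have h3 : x j = (l j + f j) / n := by rw [← h2]; field_simp
    rw [h3]
    push_cast
    field_simp
    ring
  set v : Finset (Fin d) → Fin d → ℕ := fun T j => if j ∈ T then l j + 1 else l j with hv
  set W : Finset (Fin d) → ℝ := fun T => (∏ j ∈ T, f j) * ∏ j ∈ univ \ T, (1 - f j) with hW
  have hWn : ∀ T, 0 ≤ W T := fun T => mul_nonneg (Finset.prod_nonneg fun j _ => hf0 j)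
    (Finset.prod_nonneg fun j _ => by have := hf1 j; linarith)
  have hWs : ∑ T ∈ (univ : Finset (Fin d)).powerset, W T = 1 := by
    have := Finset.prod_add f (fun j => 1 - f j) (univ : Finset (Fin d))
    rw [← this]
    simp
  have gen : ∀ g g' : Fin d → ℝ, ∀ G : Finset (Fin d) → ℝ,
      (∀ T, G T = ∏ j, (if j ∈ T then g j else g' j)) →
      ∏ j, (f j * g j + (1 - f j) * g' j) = ∑ T ∈ (univ : Finset (Fin d)).powerset, W T * G T := by
    intro g g' G hG
    rw [Finset.prod_add]
    refine Finset.sum_congr rfl fun T hT => ?_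
    rw [hG T, Finset.prod_mul_distrib, Finset.prod_mul_distrib]
    have : ∏ j, (if j ∈ T then g j else g' j) = (∏ j ∈ T, g j) * ∏ j ∈ univ \ T, g' j := by
      rw [Finset.prod_ite]
      congr 1
      · refine Finset.prod_congr ?_ fun _ _ => rfl
        ext j
        simp
      · refine Finset.prod_congr ?_ fun _ _ => rfl
        ext j
        simp
    rw [this]
    simp only [hW]
    ring
  have e3 : ∀ i, ∏ j, max 0 (min 1 ((x j - (cell n p i j : ℝ) / n) / (1 / n)))
      = ∑ T ∈ (univ : Finset (Fin d)).powerset, W T *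
        (if ∀ j, cell n p i j < v T j then (1:ℝ) else 0) := by
    intro i
    rw [Finset.prod_congr rfl fun j _ => e1 i j]
    refine gen _ _ _ fun T => ?_
    by_cases h : ∀ j, cell n p i j < v T j
    · rw [if_pos h]
      symm
      refine Finset.prod_eq_one fun j _ => ?_
      have := h j
      simp only [hv] at this
      by_cases hj : j ∈ T
      · rw [if_pos hj] at this ⊢
        rw [if_pos this]
      · rw [if_neg hj] at this ⊢
        rw [if_pos this]
    · rw [if_neg h]
      symm
      push Not at h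
      obtain ⟨j, hj⟩ := h
      refine Finset.prod_eq_zero (Finset.mem_univ j) ?_
      simp only [hv] at hj
      by_cases hj' : j ∈ T
      · rw [if_pos hj'] at hj ⊢
        rw [if_neg (not_lt.mpr hj)]
      · rw [if_neg hj'] at hj ⊢
        rw [if_neg (not_lt.mpr hj)]
  have e4 : ∑ i, ∏ j, max 0 (min 1 ((x j - (cell n p i j : ℝ) / n) / (1 / n)))
      = ∑ T ∈ (univ : Finset (Fin d)).powerset, W T * below n p (v T) := by
    simp_rw [e3]
    rw [Finset.sum_comm]
    refine Finset.sum_congr rfl fun T _ => ?_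
    rw [← Finset.mul_sum]
    congr 1
    unfold below
    rw [Finset.card_filter]
    push_cast
    rfl
  have e5 : ∏ j, x j = ∑ T ∈ (univ : Finset (Fin d)).powerset, W T * ∏ j, ((v T j : ℝ) / n) := by
    rw [Finset.prod_congr rfl fun j _ => e2 j]
    refine gen _ _ _ fun T => ?_
    refine Finset.prod_congr rfl fun j _ => ?_
    simp only [hv]
    by_cases hj : j ∈ T
    · rw [if_pos hj, if_pos hj]
    · rw [if_neg hj, if_neg hj]
  rw [e4, e5, Finset.mul_sum, ← Finset.sum_sub_distrib]
  calc |∑ T ∈ (univ : Finset (Fin d)).powerset, (W T * below n p (v T) - m * (W T * ∏ j, ((v T j : ℝ) / n)))|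
      ≤ ∑ T ∈ (univ : Finset (Fin d)).powerset, |W T * below n p (v T) - m * (W T * ∏ j, ((v T j : ℝ) / n))| :=
        Finset.abs_sum_le_sum_abs _ _
    _ ≤ ∑ T ∈ (univ : Finset (Fin d)).powerset, W T * (2 * (m * D)) := by
        refine Finset.sum_le_sum fun T _ => ?_
        have : W T * below n p (v T) - m * (W T * ∏ j, ((v T j : ℝ) / n))
            = W T * (below n p (v T) - m * ∏ j, ((v T j : ℝ) / n)) := by ring
        rw [this, abs_mul, abs_of_nonneg (hWn T)]
        refine mul_le_mul_of_nonneg_left ?_ (hWn T)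
        refine below_bound hn p hp0 hD hDm (v T) fun j => ?_
        have := hl j
        simp only [hv]
        split_ifs <;> omega
    _ = 2 * (m * D) := by rw [← Finset.sum_mul, hWs, one_mul]

/-- the number of cubes cut by the boundary of a corner box -/
lemma cut_bound {m d n : ℕ} (hn : 1 ≤ n) (p : Fin m → Fin d → ℝ) (hp0 : ∀ i j, 0 ≤ p i j)
    {D : ℝ} (hD : HasDisc p D) (hDm : 0 ≤ m * D) (x : Fin d → ℝ) (hx0 : ∀ j, 0 ≤ x j)
    (hx1 : ∀ j, x j ≤ 1) :
    ∃ M : Finset (Fin m), (∀ i ∉ M,
      ∏ j, max 0 (min 1 ((x j - (cell n p i j : ℝ) / n) / (1 / n))) = 0 ∨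
      ∏ j, max 0 (min 1 ((x j - (cell n p i j : ℝ) / n) / (1 / n))) = 1) ∧
      (M.card : ℝ) ≤ d * (m / n + 4 * (m * D)) := by
  classical
  have hn0 : (0:ℝ) < n := by exact_mod_cast hn
  choose l f hl hf0 hf1 hx using fun j => exists_cell hn (hx0 j) (hx1 j)
  have e1 : ∀ i j, max 0 (min 1 ((x j - (cell n p i j : ℝ) / n) / (1 / n)))
      = f j * (if cell n p i j < l j + 1 then (1:ℝ) else 0)
      + (1 - f j) * (if cell n p i j < l j then (1:ℝ) else 0) := by
    intro i j
    rw [← clamp_interp (hf0 j) (hf1 j)]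
    congr 2
    rw [← hx j]
    field_simp
  refine ⟨(univ : Finset (Fin d)).biUnion fun j => (univ : Finset (Fin m)).filter
    fun i => cell n p i j = l j, ?_, ?_⟩
  · intro i hi
    have hne : ∀ j, cell n p i j ≠ l j := by
      intro j hj
      apply hi
      rw [Finset.mem_biUnion]
      exact ⟨j, Finset.mem_univ j, by rw [Finset.mem_filter]; exact ⟨Finset.mem_univ i, hj⟩⟩
    by_cases hall : ∀ j, cell n p i j < l j
    · right
      refine Finset.prod_eq_one fun j _ => ?_
      rw [e1, if_pos (by have := hall j; omega), if_pos (hall j)]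
      ring
    · left
      push Not at hall
      obtain ⟨j, hj⟩ := hall
      refine Finset.prod_eq_zero (Finset.mem_univ j) ?_
      have := hne j
      rw [e1, if_neg (by omega), if_neg (by omega)]
      ring
  · have hone : ∀ j₁ : Fin d, (((univ : Finset (Fin m)).filter fun i => cell n p i j₁ = l j₁).card : ℝ)
        ≤ m / n + 4 * (m * D) := by
      intro j₁
      have b1 := below_bound hn p hp0 hD hDm (Function.update (fun _ => n) j₁ (l j₁ + 1)) (by
        intro j
        by_cases hj : j = j₁
        · subst hj; rw [Function.update_self]; have := hl j; omega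
        · rw [Function.update_of_ne hj])
      have b2 := below_bound hn p hp0 hD hDm (Function.update (fun _ => n) j₁ (l j₁)) (by
        intro j
        by_cases hj : j = j₁
        · subst hj; rw [Function.update_self]; have := hl j; omega
        · rw [Function.update_of_ne hj])
      have hprod : ∀ k : ℕ, ∏ j, ((Function.update (fun _ => n) j₁ k j : ℕ) : ℝ) / n = k / n := by
        intro k
        rw [← Finset.mul_prod_erase _ _ (Finset.mem_univ j₁), Function.update_self]
        have : ∏ j ∈ univ.erase j₁, (((Function.update (fun _ => n) j₁ k j : ℕ) : ℝ) / n) = 1 := by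
          refine Finset.prod_eq_one fun j hj => ?_
          rw [Function.update_of_ne (Finset.ne_of_mem_erase hj), div_self hn0.ne']
        rw [this, mul_one]
      rw [hprod] at b1 b2
      have hcell : ∀ i j, cell n p i j < n := by
        intro i j
        exact lt_of_le_of_lt (min_le_right _ _) (by omega)
      have hset : ∀ k : ℕ, ((univ : Finset (Fin m)).filter
            fun i => ∀ j, cell n p i j < Function.update (fun _ => n) j₁ k j)
          = (univ : Finset (Fin m)).filter fun i => cell n p i j₁ < k := by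
        intro k
        ext i
        simp only [Finset.mem_filter, Finset.mem_univ, true_and]
        constructor
        · intro h
          have := h j₁
          rwa [Function.update_self] at this
        · intro h j
          by_cases hj : j = j₁
          · subst hj; rw [Function.update_self]; exact h
          · rw [Function.update_of_ne hj]; exact hcell i j
      unfold below at b1 b2
      rw [hset] at b1 b2
      have hsplit : ((univ : Finset (Fin m)).filter fun i => cell n p i j₁ < l j₁ + 1)
          = ((univ : Finset (Fin m)).filter fun i => cell n p i j₁ < l j₁) ∪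
            ((univ : Finset (Fin m)).filter fun i => cell n p i j₁ = l j₁) := by
        ext i
        simp only [Finset.mem_filter, Finset.mem_univ, true_and, Finset.mem_union]
        omega
      have hdis : Disjoint ((univ : Finset (Fin m)).filter fun i => cell n p i j₁ < l j₁)
            ((univ : Finset (Fin m)).filter fun i => cell n p i j₁ = l j₁) := by
        rw [Finset.disjoint_left]
        intro i h1 h2
        simp only [Finset.mem_filter, Finset.mem_univ, true_and] at h1 h2
        omega
      have hc := Finset.card_union_of_disjoint hdis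
      rw [← hsplit] at hc
      have hc' : (((univ : Finset (Fin m)).filter fun i => cell n p i j₁ < l j₁ + 1).card : ℝ)
          = (((univ : Finset (Fin m)).filter fun i => cell n p i j₁ < l j₁).card : ℝ)
          + (((univ : Finset (Fin m)).filter fun i => cell n p i j₁ = l j₁).card : ℝ) := by
        exact_mod_cast hc
      have q1 := (abs_le.mp b1).2
      have q2 := (abs_le.mp b2).1
      have q3 : (m:ℝ) * ((l j₁ + 1 : ℕ) / n) - m * (l j₁ / n) = m / n := by
        push_cast
        ring
      linarith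
    calc (((univ : Finset (Fin d)).biUnion fun j => (univ : Finset (Fin m)).filter
          fun i => cell n p i j = l j).card : ℝ)
        ≤ ∑ j : Fin d, (((univ : Finset (Fin m)).filter fun i => cell n p i j = l j).card : ℝ) := by
          exact_mod_cast Finset.card_biUnion_le
      _ ≤ ∑ _j : Fin d, ((m:ℝ) / n + 4 * (m * D)) := Finset.sum_le_sum fun j _ => hone j
      _ = d * (m / n + 4 * (m * D)) := by
          rw [Finset.sum_const, Finset.card_univ, Fintype.card_fin, nsmul_eq_mul]

end Pool.Agent.U180.SN
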